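import Pool.Agent.Lib.MP_c7af3c_ag.T2C.H51.Plq
import Pool.Agent.Lib.MP_c7af3c_ag.T2.H38.Pick

/-!
# MP_c7af3c_ag, project T2C, row Q25: type (2,5), the plane is contained in the quadric
-/

set_option autoImplicit false
set_option linter.unusedSectionVars false

namespace Pool.Agent.T2C.H51

open MvPolynomial Pool.Agent.Gen Pool.Agent.T2.G
open Pool.Agent.T2 (Sizes Sit)
open Pool.Agent.T2C (Pl Ty RT ST)
open Pool.Agent.Sharp.H75 (DG Tup dco)
open Pool.Agent.T2C.H8 (Fix T3 HomC lift rs RC sm mulC dT PlC)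
open Pool.Agent.Edge.H65 (ssub ssub_X ssub_C)
open Pool.Agent.T2.H51 (bor dt dtA dtA_apply)

/-- an enumeration of the coordinates -/
def eps : Fin 7 ⊕ (Fin 6 ⊕ Fin 5) ≃ Fin (5 + 1) × Fin 3 :=
  (Equiv.sumCongr (Equiv.refl _) finSumFinEquiv).trans (finSumFinEquiv.trans
    ((finCongr (show 7 + (6 + 5) = (5 + 1) * 3 by norm_num)).trans
      (finProdFinEquiv (m := 5 + 1) (n := 3)).symm))

section

variable {Ω : Type} [Field Ω]

theorem dt_ne {R α β : Type} [Fintype R] [DecidableEq R]
    [Fintype α] [DecidableEq α] [Fintype β] [DecidableEq β] (ε : α ⊕ β ≃ R)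
    {w : α ⊕ β → R → Ω} (hw : LinearIndependent Ω w) : dt ε w ≠ 0 := by
  have h1 : LinearIndependent Ω (Matrix.of fun i j => w i (ε j)).row := by
    have h2 := hw.map' (LinearEquiv.funCongrLeft Ω Ω ε).toLinearMap
      (LinearEquiv.ker _)
    exact h2
  have h2 := Matrix.linearIndependent_rows_iff_isUnit.1 h1
  rw [Matrix.isUnit_iff_isUnit_det] at h2
  exact h2.ne_zero

/-- the linear map `g ↦ VV (lift g)` on the homogeneous tuples -/
noncomputable def LV {n c : ℕ} {d : Fin c → ℕ} (D : DSys Ω n c d) (x : Fin (n + 1) → Ω)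
    (t : Fin 3 → Fin (n + 1)) (P : Fin 3 → Fin (n + 1) → Ω) :
    ST Ω d →ₗ[Ω] (Fin (n + 1) × Fin 3 → Ω) where
  toFun g := VV D (Qf x P) (lift t g.1)
  map_add' g h := by
    rw [Submodule.coe_add, H8.lift_add, map_add]
  map_smul' a g := by
    rw [Submodule.coe_smul, H8.lift_smul, map_smul, RingHom.id_apply]

theorem LV_apply {n c : ℕ} {d : Fin c → ℕ} (D : DSys Ω n c d) (x : Fin (n + 1) → Ω)
    (t : Fin 3 → Fin (n + 1)) (P : Fin 3 → Fin (n + 1) → Ω) (g : ST Ω d) :
    LV D x t P g = VV D (Qf x P) (lift t g.1) := rfl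

theorem finrank_range_LV {n c : ℕ} {d : Fin c → ℕ} {D : DSys Ω n c d} {x : Fin (n + 1) → Ω}
    {t : Fin 3 → Fin (n + 1)} {P : Fin 3 → Fin (n + 1) → Ω} (hp : Pl D x t P)
    (hr : RT d (fun i => x (t i)) (RC D x t P)) :
    Module.finrank Ω (LinearMap.range (LV D x t P)) = 3 * c + 5 := by
  have h0 : 0 < Module.finrank Ω (ST Ω d) := by
    have := hr.dim
    omega
  have hfin : FiniteDimensional Ω (ST Ω d) := Module.finite_of_finrank_pos h0
  have h1 := LinearMap.finrank_range_add_finrank_ker (LV D x t P)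
  have h2 : (LinearMap.ker (LV D x t P)).map (ST Ω d).subtype = RC D x t P := by
    ext g
    constructor
    · rintro ⟨g, hg, rfl⟩
      exact (VV_lift g.1 g.2 hp).1 hg
    · intro hg
      exact ⟨⟨g, hg.1⟩, (VV_lift g hg.1 hp).2 hg, rfl⟩
  have h3 : Module.finrank Ω (LinearMap.ker (LV D x t P)) = Module.finrank Ω (RC D x t P) := by
    rw [← h2]
    exact (Submodule.equivMapOfInjective _ (Submodule.injective_subtype _) _).finrank_eq
  have h4 := hr.dim
  omega

theorem lift_single {n : ℕ} (t : Fin 3 → Fin (n + 1)) (m : Fin 2)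
    (g : MvPolynomial (Fin 3) Ω) :
    lift (n := n) t (Pi.single m g : T3 Ω 2) = sgl m (rename t g) := by
  funext m'
  rw [H8.lift_apply]
  by_cases h : m' = m
  · subst h
    rw [Pi.single_eq_same, sgl_self]
  · rw [Pi.single_eq_of_ne h, map_zero, sgl_ne h]

theorem CB_rename {Γ : Type} [LinearOrderedCommGroupWithZero Γ] (v : Valuation Ω Γ) {n : ℕ}
    {t : Fin 3 → Fin (n + 1)} (ht : Function.Injective t) (B : MvPolynomial (Fin 3) ℤ) :
    T2.G.CB v (rename t (MvPolynomial.map (Int.castRingHom Ω) B)) 1 := by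
  intro I
  by_cases h : coeff I (rename t (MvPolynomial.map (Int.castRingHom Ω) B)) = 0
  · rw [h, map_zero]
    exact zero_le
  · obtain ⟨J, hJ, -⟩ := coeff_rename_ne_zero _ _ _ h
    rw [← hJ, coeff_rename_mapDomain t ht, coeff_map, eq_intCast]
    have h1 : ∀ n : ℕ, v (n : Ω) ≤ 1 := T2.G.v_natCast_le v
    rcases Int.eq_nat_or_neg (coeff J B) with ⟨n, hn | hn⟩
    · rw [hn, Int.cast_natCast]
      exact h1 n
    · rw [hn, Int.cast_neg, Int.cast_natCast, Valuation.map_neg]
      exact h1 n

end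

theorem q25 (hA : Q25.AStatement) (hB : Q25.BStatement) (hE : Q25.EStatement) :
    Q25Statement := by
  intro hPhi hPcan Ω _ _ k Γ _ S n d D x t P hT hsit hp m0 m1 hd0 hd1 hz
  classical
  obtain rfl : n = 5 := by
    have := hT.hn
    omega
  have h01 : m0 ≠ m1 := by
    rintro rfl
    omega
  have hm : ∀ m : Fin 2, m ≠ m0 → m = m1 := by
    intro m hm
    have := m0.2
    have := m1.2
    have := m.2
    ext
    have e1 : (m : ℕ) ≠ m0 := fun h => hm (Fin.ext h)
    have e2 : (m0 : ℕ) ≠ m1 := fun h => h01 (Fin.ext h)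
    omega
  have hr := hPhi hPcan Ω 5 2 d D x t P hT hp
  have hq := pq_of hp
  have hR0 : ∀ g ∈ RC D x t P, g m0 = 0 := fun g hg => RC_zero hp hz g hg
  obtain ⟨B0, hB0, hBs⟩ := hB hA Ω d (fun i => x (t i)) (RC D x t P) hr m0 m1 hd0 hd1 hR0
  set B : MvPolynomial (Fin 3) Ω := MvPolynomial.map (Int.castRingHom Ω) B0 with hBd
  have hBh : B.IsHomogeneous 3 := hB0.map _
  obtain ⟨mm, mm_inj, mm_deg, mm_sum⟩ := exists_mm
  have hmono : ∀ j, (monomial (mm j) (1 : Ω)).IsHomogeneous 2 := fun j =>
    isHomogeneous_monomial _ (mm_deg j)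
  -- the columns
  set u1 : Fin 6 → (Fin (5 + 1) × Fin 3 → Ω) := fun j =>
    VV D (Qf x P) (sgl m0 (rename t (monomial (mm j) (1 : Ω)))) with hu1
  set u2 : Fin 6 → (Fin (5 + 1) × Fin 3 → Ω) := fun j =>
    VV D (Qf x P) (sgl m1 (rename t B * rename t (monomial (mm j) (1 : Ω)))) with hu2
  have hL1 : ∀ g : MvPolynomial (Fin 3) Ω, g.IsHomogeneous 2 →
      VV D (Qf x P) (sgl m0 (rename t g)) = ∑ j, coeff (mm j) g • u1 j := by
    intro g hg
    conv_lhs => rw [mm_sum Ω g hg]
    simp only [map_sum, map_smul, hu1]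
  have hL2 : ∀ g : MvPolynomial (Fin 3) Ω, g.IsHomogeneous 2 →
      VV D (Qf x P) (sgl m1 (rename t B * rename t g)) = ∑ j, coeff (mm j) g • u2 j := by
    intro g hg
    conv_lhs => rw [mm_sum Ω g hg]
    simp only [map_sum, map_smul, Finset.mul_sum, mul_smul_comm, hu2]
  -- independence of the first thirteen columns
  have hU : LinearIndependent Ω (Sum.elim (pp (Qf x P)) u1) := by
    rw [Fintype.linearIndependent_iff]
    intro e he
    rw [Fintype.sum_sum_type] at he
    simp only [Sum.elim_inl, Sum.elim_inr] at he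
    have h1 : ∑ j, e (Sum.inl j) • pj t (pp (Qf x P) j) = 0 := by
      have h2 := congrArg (pj t) he
      rw [map_add, map_sum, map_sum, map_zero] at h2
      simp only [map_smul] at h2
      have h3 : ∀ j, pj t (u1 j) = 0 := fun j => pj_VV hp _
      simp only [h3, smul_zero, Finset.sum_const_zero, add_zero] at h2
      exact h2
    have h2 := Fintype.linearIndependent_iff.1 (pj_pp hq) (fun j => e (Sum.inl j)) h1
    have h3 : ∑ j, e (Sum.inr j) • u1 j = 0 := by
      simpa [h2] using he
    set g : MvPolynomial (Fin 3) Ω := ∑ j, e (Sum.inr j) • monomial (mm j) (1 : Ω) with hg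
    have hgh : g.IsHomogeneous 2 := IsHomogeneous.sum _ _ _ fun j _ => by
      rw [smul_monomial]
      exact isHomogeneous_monomial _ (mm_deg j)
    have hgc : ∀ j, coeff (mm j) g = e (Sum.inr j) := by
      intro j
      rw [hg, coeff_sum, Finset.sum_eq_single j]
      · rw [coeff_smul, coeff_monomial, if_pos rfl, smul_eq_mul, mul_one]
      · intro l _ hl
        rw [coeff_smul, coeff_monomial, if_neg (fun h => hl (mm_inj h)), smul_zero]
      · intro h; exact absurd (Finset.mem_univ _) h
    have h4 : VV D (Qf x P) (sgl m0 (rename t g)) = 0 := by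
      rw [hL1 g hgh]
      simp only [hgc]
      exact h3
    have h5 : (Pi.single m0 g : T3 Ω 2) ∈ RC D x t P := by
      refine (VV_lift _ ?_ hp).1 ?_
      · intro m
        by_cases h : m = m0
        · subst h
          rw [Pi.single_eq_same, hd0]
          exact hgh
        · rw [Pi.single_eq_of_ne h]
          exact isHomogeneous_zero _ _ _
      · rw [lift_single]
        exact h4
    have h6 := hR0 _ h5
    rw [Pi.single_eq_same] at h6
    rintro (i | i)
    · exact h2 i
    · rw [← hgc, h6, coeff_zero]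
  -- the columns span
  have hW : Module.finrank Ω (Fin (5 + 1) × Fin 3 → Ω) = 18 := by
    rw [Module.finrank_pi]
    simp
  have htop := T2.H38.top_of_proj (W := Fin (5 + 1) × Fin 3 → Ω) (m := 11) (pj t) (pj_pp hq)
    (LV D x t P) (fun g => pj_VV hp _) (by rw [hW, Fintype.card_fin]) (by
      rw [finrank_range_LV hp hr])
  have hspan : Submodule.span Ω (Set.range (Sum.elim (pp (Qf x P)) u1) ∪ Set.range u2) = ⊤ := by
    rw [eq_top_iff, ← htop, sup_le_iff]
    constructor
    · refine Submodule.span_mono ?_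
      rintro _ ⟨j, rfl⟩
      exact Or.inl ⟨Sum.inl j, rfl⟩
    · rintro _ ⟨⟨g, hg⟩, rfl⟩
      rw [LV_apply]
      obtain ⟨r, b, hrR, hb, hrb⟩ := hBs (g m1) (by
        have := hg m1
        rwa [hd1] at this)
      have e1 : g = Pi.single m0 (g m0) + Pi.single m1 r + Pi.single m1 (B * b) := by
        funext m
        rw [Pi.add_apply, Pi.add_apply]
        by_cases h : m = m0
        · subst h
          rw [Pi.single_eq_same, Pi.single_eq_of_ne h01, Pi.single_eq_of_ne h01, add_zero,
            add_zero]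
        · obtain rfl := hm m h
          rw [Pi.single_eq_of_ne h, Pi.single_eq_same, Pi.single_eq_same, zero_add, ← hrb]
      have e2 : VV D (Qf x P) (lift t g) = VV D (Qf x P) (sgl m0 (rename t (g m0))) +
          VV D (Qf x P) (sgl m1 (rename t B * rename t b)) := by
        conv_lhs => rw [e1]
        rw [H8.lift_add, H8.lift_add, map_add, map_add, (VV_lift _ hrR.1 hp).2 hrR, add_zero,
          lift_single, lift_single, map_mul]
      show VV D (Qf x P) (lift t g) ∈ _
      rw [e2, hL1 (g m0) (by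
        have := hg m0
        rwa [hd0] at this), hL2 b hb]
      refine Submodule.add_mem _ (Submodule.sum_mem _ fun j _ => Submodule.smul_mem _ _ ?_)
        (Submodule.sum_mem _ fun j _ => Submodule.smul_mem _ _ ?_)
      · exact Submodule.subset_span (Or.inl ⟨Sum.inr j, rfl⟩)
      · exact Submodule.subset_span (Or.inr ⟨j, rfl⟩)
  obtain ⟨b, hb, hli⟩ := T2.H38.pick (W := Fin (5 + 1) × Fin 3 → Ω) (m := 5) hU (by
    rw [hW, Fintype.card_sum, Fintype.card_fin, Fintype.card_fin]) u2 hspan
  -- the determinants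
  set f : (Fin (5 + 1) × Fin 3 → Ω) [⋀^((Fin 7 ⊕ Fin 6) ⊕ Fin 5)]→ₗ[Ω] Ω :=
    dtA ((Equiv.sumAssoc _ _ _).trans eps) with hf
  set F : (Fin 5 → Fin 6) → Ω := fun a => f (Sum.elim (Sum.elim (pp (Qf x P)) u1) (u2 ∘ a))
    with hF
  have hFdl : ∀ a, F a = dl D (Qf x P) t m0 m1 eps (rename t B)
      (fun j => monomial (mm j) 1) fun j => monomial (mm (a j)) 1 := by
    intro a
    rw [hF]
    dsimp only
    rw [hf, dtA_apply, ← dt_assoc]
    rfl
  have hM : ∀ (p : S.V) (a : Fin 5 → Fin 6) (r : Fin 3 → Fin (5 + 1)),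
      S.v p (F a) * S.v p (Matrix.det (Matrix.of fun i j => P i (r j))) ≤
        S.v p (eval (fun i => x (t i)) B) * S.M p ^ 11 := by
    intro p a r
    have h1 := m25 hq (S.v p) (M := S.M p) (fun m I hI f hf => hsit.hdel p m I hI f hf)
      h01 hd0 hd1 (B := rename t B) hBh.rename_isHomogeneous (CB_rename (S.v p) hp.inj B0) eps
      mm mm_deg (fun j => mm (a j)) (fun j => mm_deg (a j)) r
    rw [hFdl, det_Qf hp]
    have h2 : eval (Qf x P 0) (rename t B) = eval (fun i => x (t i)) B := by
      rw [eval_rename]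
      rfl
    rw [h2] at h1
    exact h1
  have hFb : F b ≠ 0 := by
    rw [hF]
    dsimp only
    rw [hf, dtA_apply]
    exact dt_ne _ hli
  have hdett : Matrix.det (Matrix.of fun i j => P i (t j)) = 1 := by
    rw [det_Qf hp]
    exact hq.det
  have hM1 : ∀ p (a : Fin 5 → Fin 6), S.v p (F a) ≤
      S.v p (eval (fun i => x (t i)) B) * S.M p ^ 11 := by
    intro p a
    have h1 := hM p a t
    rwa [hdett, map_one, mul_one] at h1
  have hpl : Nonempty S.V := by
    by_contra hemp
    rw [not_nonempty_iff] at hemp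
    obtain ⟨i, hi⟩ := hsit.xk
    exact hi (S.mem ∅ 0 _ (fun b hb => absurd hb (Finset.notMem_empty b)) fun p => hemp.elim p)
  have hβ : eval (fun i => x (t i)) B ≠ 0 := by
    intro h0
    obtain ⟨p⟩ := hpl
    have h1 := hM1 p b
    rw [h0, map_zero, zero_mul, le_zero_iff, map_eq_zero] at h1
    exact hFb h1
  have hvβ : ∀ p, 0 < S.v p (eval (fun i => x (t i)) B) := fun p =>
    zero_lt_iff.2 ((Valuation.ne_zero_iff _).2 hβ)
  have hvF : ∀ p, 0 < S.v p (F b) := fun p => zero_lt_iff.2 ((Valuation.ne_zero_iff _).2 hFb)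
  have hμ : ∀ a : Fin 5 → Fin 6, F a / eval (fun i => x (t i)) B ∈ k := by
    intro a
    refine S.mem ∅ 11 _ (fun b hb => absurd hb (Finset.notMem_empty b)) fun p => ?_
    rw [Finset.prod_empty, mul_one, map_div₀, div_le_iff₀ (hvβ p), mul_comm]
    exact hM1 p a
  have hinv : eval (fun i => x (t i)) B / F b ∈ k := by
    have h1 := k.inv_mem (hμ b)
    rwa [inv_div] at h1
  have hPk : ∀ r : Fin 3 → Fin (5 + 1), Matrix.det (Matrix.of fun i j => P i (r j)) ∈ k := by
    intro r
    refine S.mem {eval (fun i => x (t i)) B / F b} 11 _ (fun b hb => ?_) fun p => ?_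
    · rw [Finset.mem_singleton.1 hb]; exact hinv
    · rw [Finset.prod_singleton]
      have h1 := hM p b r
      have h2 : S.v p (Matrix.det (Matrix.of fun i j => P i (r j))) ≤
          S.M p ^ 11 * S.v p (eval (fun i => x (t i)) B / F b) := by
        rw [map_div₀, ← mul_div_assoc, le_div_iff₀ (hvF p), mul_comm, mul_comm (S.M p ^ 11)]
        exact h1
      refine h2.trans (mul_le_mul_right ?_ _)
      exact (le_max_right 1 _).trans (le_self_pow₀ (le_max_left 1 _) (by norm_num))
  have hP : ∀ i f, P i f ∈ k := by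
    intro i f
    rw [← det_upd hp i f]
    exact hPk _
  -- the kernel
  obtain ⟨b0, hb0⟩ : ∃ b0 : Fin 6, b0 ∉ Set.range b := by
    by_contra hall
    push Not at hall
    have h1 : Function.Surjective b := fun b => hall b
    have h2 := Fintype.card_le_of_surjective b h1
    rw [Fintype.card_fin, Fintype.card_fin] at h2
    omega
  have hcard : Fintype.card ((Fin 7 ⊕ Fin 6) ⊕ Fin 5) =
      Module.finrank Ω (Fin (5 + 1) × Fin 3 → Ω) := by
    rw [hW, Fintype.card_sum, Fintype.card_sum, Fintype.card_fin, Fintype.card_fin,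
      Fintype.card_fin]
  have hcr := T2.H38.cramer_alt (W := Fin (5 + 1) × Fin 3 → Ω) f hli hcard hFb (u2 b0)
  have hupd : ∀ j : Fin 5, f (Function.update (Sum.elim (Sum.elim (pp (Qf x P)) u1) (u2 ∘ b))
      (Sum.inr j) (u2 b0)) = F (Function.update b j b0) := by
    intro j
    rw [Sum.update_elim_inr, hF]
    dsimp only
    congr 2
    funext l
    by_cases hl : l = j
    · subst hl
      rw [Function.update_self, Function.comp_apply, Function.update_self]
    · rw [Function.update_of_ne hl, Function.comp_apply, Function.comp_apply,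
        Function.update_of_ne hl]
  rw [Fintype.sum_sum_type] at hcr
  simp only [hupd, Sum.elim_inl, Sum.elim_inr, Function.comp_apply] at hcr
  set cc : Fin 5 → Ω := fun j => F (Function.update b j b0) / F b with hcc
  have hcr' : ∃ e : Fin 7 ⊕ Fin 6 → Ω, u2 b0 = ∑ i, e i • Sum.elim (pp (Qf x P)) u1 i +
      ∑ j, cc j • u2 (b j) := ⟨_, hcr⟩
  obtain ⟨e, he⟩ := hcr'
  have hck : ∀ j, cc j ∈ k := by
    intro j
    have h1 := k.mul_mem (hμ (Function.update b j b0)) hinv
    have h2 : F (Function.update b j b0) / eval (fun i => x (t i)) B *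
        (eval (fun i => x (t i)) B / F b) = cc j := by
      rw [hcc]
      field_simp
    rwa [h2] at h1
  set κ : MvPolynomial (Fin 3) Ω := monomial (mm b0) 1 -
    ∑ j, cc j • monomial (mm (b j)) (1 : Ω) with hκ
  have hκh : κ.IsHomogeneous 2 := by
    refine (hmono b0).sub (IsHomogeneous.sum _ _ _ fun j _ => ?_)
    rw [smul_monomial]
    exact isHomogeneous_monomial _ (mm_deg _)
  have hcoe : ∀ I, coeff I κ = (if mm b0 = I then 1 else 0) -
      ∑ j, cc j * (if mm (b j) = I then 1 else 0) := by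
    intro I
    rw [hκ]
    simp only [coeff_sub, coeff_sum, coeff_smul, coeff_monomial, smul_eq_mul]
  have hVκ : VV D (Qf x P) (sgl m1 (rename t B * rename t κ)) =
      ∑ i, e i • Sum.elim (pp (Qf x P)) u1 i := by
    have h1 : VV D (Qf x P) (sgl m1 (rename t B * rename t κ)) =
        u2 b0 - ∑ j, cc j • u2 (b j) := by
      rw [hκ]
      simp only [map_sub, mul_sub, map_sum, Finset.mul_sum, map_smul, mul_smul_comm, hu2]
    rw [h1, he]
    exact add_sub_cancel_right _ _
  have hx0 : ∀ p, Qf x P 0 p = 1 * x p := fun p => (one_mul _).symm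
  have h1 : ee D m1 x (VV D (Qf x P) (sgl m1 (rename t B * rename t κ))) = 0 := by
    rw [hVκ, map_sum]
    refine Finset.sum_eq_zero fun i _ => ?_
    rw [map_smul]
    rcases i with i | i
    · rw [Sum.elim_inl, ee_pp D (hp.h0 m1) hx0, smul_zero]
    · rw [Sum.elim_inr, hu1]
      have h2 := ee_VV D (P := Qf x P) hp.h0 m1
        (G := sgl m0 (rename t (monomial (mm i) (1 : Ω)))) (sgl_hom (by
          rw [hd0]; exact (hmono i).rename_isHomogeneous))
      rw [sgl_ne (Ne.symm h01), map_zero, neg_zero] at h2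
      rw [show ee D m1 x (VV D (Qf x P) (sgl m0 (rename t (monomial (mm i) (1 : Ω))))) = 0
        from h2, smul_zero]
  have h2 := ee_VV D (P := Qf x P) hp.h0 m1 (G := sgl m1 (rename t B * rename t κ))
    (sgl_hom (by
      rw [hd1]; exact hBh.rename_isHomogeneous.mul hκh.rename_isHomogeneous))
  have h3 : eval (fun i => x (t i)) B * eval (fun i => x (t i)) κ = 0 := by
    have h4 : eval x (rename t B * rename t κ) = 0 := by
      rw [sgl_self] at h2
      have h5 : ee D m1 x (VV D (Qf x P) (sgl m1 (rename t B * rename t κ))) =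
        - eval x (rename t B * rename t κ) := h2
      rw [h1] at h5
      exact neg_eq_zero.1 h5.symm
    rw [map_mul, eval_rename, eval_rename] at h4
    exact h4
  have h4 := (mul_eq_zero.1 h3).resolve_left hβ
  refine hE Ω k Γ S 5 d D x t P hT hsit hp hP κ hκh (fun I => ?_) (fun h0 => ?_) h4
  · rw [hcoe]
    refine k.sub_mem (by split_ifs <;> simp [k.one_mem, k.zero_mem]) (k.sum_mem fun j _ => ?_)
    exact k.mul_mem (hck j) (by split_ifs <;> simp [k.one_mem, k.zero_mem])
  · have h5 := hcoe (mm b0)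
    rw [h0, coeff_zero, if_pos rfl, Finset.sum_eq_zero, sub_zero] at h5
    · exact zero_ne_one h5
    · intro j _
      rw [if_neg, mul_zero]
      intro h6
      exact hb0 ⟨j, mm_inj h6⟩

end Pool.Agent.T2C.H51
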