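import Pool.Agent.Lib.MP_c7af3c_ag.T2C.IfaceB
import Pool.Agent.Lib.MP_c7af3c_ag.T2.LC.Defs

/-!
# MP_c7af3c_ag, project T2C: row Q25, the sub-rows
Type (2,5), the plane is contained in the quadric. `U` is the annihilator (dimension 5) in the
functionals of degree 5 of the quintic components of `RC`.
-/

set_option autoImplicit false

namespace Pool.Agent.T2C.Q25

open MvPolynomial Pool.Agent.Gen Pool.Agent.Sharp Pool.Agent.Edge
open Pool.Agent.T2 (S3 mulS Sizes Sit)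
open Pool.Agent.T2.LC (Dj Inj ct)
open Pool.Agent.T2C.H8 (Fix T3 HomC lift rs RC sm mulC dT PlC)
open Pool.Agent.Edge.H65 (ssub)

/-- Sub-row A (pure algebra): a product of three linear forms is injective on `U`.
Proof, with `vl`, `k2`, `k1` of T2/LC. LEMMA R: if `E ≤ Dj j`, `j ≥ 3`, `finrank E ≤ 5` and
`finrank (E ⊓ ker l) + 1 ≥ finrank E` for all `l` (enough: for almost all `l` on every line), then
`finrank E ≤ 1` (K2S if `finrank E ≥ 3`, VLS if `finrank E = 2`).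
(1) `VLS` for `j = 5`: some `l₁` is injective on `U` (`D_5(z)` has dimension 6).
(2) If all `l₁ l₂` are not injective: for `l₁` injective `l₁ U = D_4(z)` by VLS. For almost all `t`
`l' = l₁ + t b` is injective, `l' U = D_4(z')`, and `z' l' D_4(z) = z' l' l₁ U = 0`, so `z' ∥ z`
(`l'` not `∥ z`); so `z l₁ U = z l' U = 0`, `z b U = 0` for all `b`, `z U = 0`: contradiction.
(3) If all `l₁ l₂ l₃` are not injective: fix `l₁` with some `l₁ l₂` injective, `U₁ = l₁ U`. For
almost all `l₂`: `l₂ U₁` (dimension 5) contains `D_3(z)` by VLS, and two such `l₂, l₂'` have the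
same `z` [otherwise `l₂ l₂' U₁`, of dimension at most 4, contains `D_2(z) + D_2(z')`, of dimension
5]. So `finrank (z U₁ ⊓ ker l₂) ≥ finrank (z U₁) - 1` for almost all `l₂`; LEMMA R:
`finrank (U₁ ⊓ ker z) ≥ 4`. So for almost all `l₁` there is `z(l₁)` with
`H(l₁) := l₁ U ⊓ D_4(z(l₁))` of dimension `≥ 4`. For almost all `l₁'`: `l₁' H(l₁) = D_3(z)`,
`l₁ H(l₁')` is a subspace of `D_3(z')` of dimension `≥ 3`, both in `l₁ l₁' U` of dimension `5`:
`z' ∥ z` (else `≥ 6`). So `finrank (z U ⊓ ker l₁) ≥ finrank (z U) - 1` for almost all `l₁`, LEMMA R: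
`finrank (U ⊓ ker z) ≥ 4`: contradiction. -/
def AStatement : Prop := ∀ (K : Type) [Field K] [CharZero K]
  (U : Submodule K (Module.Dual K (MvPolynomial (Fin 3) K))), U ≤ Dj 5 →
  Module.finrank K U = 5 →
  (∀ l : Fin 3 → K, l ≠ 0 → Module.finrank K (U ⊓ LinearMap.ker (ct (T2.LC.lf l)) :
    Submodule K (Module.Dual K (MvPolynomial (Fin 3) K))) ≤ 3) →
  ∃ l₁ l₂ l₃ : Fin 3 → K, Inj U (T2.LC.lf l₁ * T2.LC.lf l₂ * T2.LC.lf l₃)

/-- Sub-row B: an integral cubic `B` such that the multiples of `B` by conics and the quintic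
components of `R` span all quintics. (`R = 0 + R₂`, `finrank R₂ = 16`,
`finrank (R₂ + z S⁴) ≥ 18`; `U` = annihilator of `R₂`; density of the integers as in
T2/H38/Dens.lean.) -/
def BStatement : Prop := AStatement → ∀ (K : Type) [Field K] [CharZero K] (d : Fin 2 → ℕ)
  (y : Fin 3 → K) (R : Submodule K (T3 K 2)), RT d y R → ∀ m0 m1, d m0 = 2 → d m1 = 5 →
  (∀ g ∈ R, g m0 = 0) →
  ∃ B : MvPolynomial (Fin 3) ℤ, B.IsHomogeneous 3 ∧ ∀ a : MvPolynomial (Fin 3) K,
    a.IsHomogeneous 5 → ∃ r b : MvPolynomial (Fin 3) K, Pi.single m1 r ∈ R ∧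
    b.IsHomogeneous 2 ∧ a = r + MvPolynomial.map (Int.castRingHom K) B * b

/-- Sub-row E: no conic over `k` in a plane over `k` through the point (as `nopl` in
T2C/H49/Nopl.lean, with CLOS, NOCURVE, `num2`; if all restrictions are zero, `e = 2` again). -/
def EStatement : Prop := ∀ (Ω : Type) [Field Ω] [CharZero Ω] (k : Subfield Ω) (Γ : Type)
  [LinearOrderedCommGroupWithZero Γ] (S : Sizes Ω k Γ) (n : ℕ) (d : Fin 2 → ℕ)
  (D : DSys Ω n 2 d) (x : Fin (n + 1) → Ω) (t : Fin 3 → Fin (n + 1))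
  (P : Fin 3 → Fin (n + 1) → Ω), Ty n 2 d → Sit S D x (t 0) → Pl D x t P →
  (∀ i f, P i f ∈ k) → ∀ C : MvPolynomial (Fin 3) Ω, C.IsHomogeneous 2 →
  (∀ I, coeff I C ∈ k) → C ≠ 0 → eval (fun i => x (t i)) C ≠ 0

end Pool.Agent.T2C.Q25
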