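import Pool.Agent.Lib.MP_c7af3c_ag.T2C.H51.Frame
import Pool.Agent.Lib.MP_c7af3c_ag.SHARP.H75.Key
import Pool.Agent.Lib.MP_c7af3c_ag.T2.H51.Bor

/-!
# MP_c7af3c_ag, project T2C, row Q25: the seven borders and the change of frame, tuples
-/

set_option autoImplicit false
set_option linter.unusedSectionVars false

namespace Pool.Agent.T2C.H51

open MvPolynomial Pool.Agent.Gen Pool.Agent.T2.G
open Pool.Agent.Sharp.H75 (DG Tup)
open Pool.Agent.T2.H51 (bor sum_bor det_tri N1 N2 det_N1 det_N2 dt dt_blk dt_right dt_cramer v_dt_le)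

variable {L : Type} [Field L] {Γ : Type} [LinearOrderedCommGroupWithZero Γ] {n c : ℕ}
  {d : Fin c → ℕ}

/-- the vector `y` in the slot `b` -/
def slot (b : Fin 3) (y : Fin (n + 1) → L) : Fin (n + 1) × Fin 3 → L :=
  fun r => if r.2 = b then y r.1 else 0

/-- the seven borders -/
def pp (P : Fin 3 → Fin (n + 1) → L) (j : Fin 7) : Fin (n + 1) × Fin 3 → L :=
  slot (bor j).2 (P (bor j).1)

/-- the variation of the three vectors of the plane -/
noncomputable def VV (D : DSys L n c d) (P : Fin 3 → Fin (n + 1) → L) :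
    Tup L n c →ₗ[L] (Fin (n + 1) × Fin 3 → L) :=
  LinearMap.pi fun r => (LinearMap.proj r.1).comp (Sharp.H75.VT D (P r.2))

theorem VV_apply (D : DSys L n c d) (P : Fin 3 → Fin (n + 1) → L)
    (G : Tup L n c) (r : Fin (n + 1) × Fin 3) : VV D P G r = DG D G (P r.2 r.1) :=
  Sharp.H75.VT_apply D (P r.2) G r.1

/-- right multiplication by `g` -/
def Rg (g : Matrix (Fin 3) (Fin 3) L) (u : Fin (n + 1) × Fin 3 → L) : Fin (n + 1) × Fin 3 → L :=
  fun r => ∑ c, g c r.2 * u (r.1, c)

theorem Rg_kron (g : Matrix (Fin 3) (Fin 3) L) (u : Fin (n + 1) × Fin 3 → L) (r : Fin (n + 1) × Fin 3) :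
    Rg g u r = ∑ r', u r' * (Matrix.kroneckerMap (fun a b => a * b)
      (1 : Matrix (Fin (n + 1)) (Fin (n + 1)) L) g) r' r := by
  rw [Fintype.sum_prod_type]
  rw [Finset.sum_eq_single r.1]
  · unfold Rg
    refine Finset.sum_congr rfl fun c _ => ?_
    rw [Matrix.kroneckerMap_apply]
    simp only [Matrix.one_apply_eq]
    ring
  · intro p _ hp
    refine Finset.sum_eq_zero fun c _ => ?_
    rw [Matrix.kroneckerMap_apply]
    simp only [Matrix.one_apply_ne hp]
    ring
  · intro h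
    exact absurd (Finset.mem_univ _) h

theorem pp_N1 {P P' : Fin 3 → Fin (n + 1) → L} {g : Matrix (Fin 3) (Fin 3) L}
    (he : ∀ b p, P b p = ∑ c, g c b * P' c p) (ht : ∀ c b, b < c → g c b = 0) (j : Fin 7) :
    pp P j = ∑ j', N1 g j j' • pp P' j' := by
  funext r
  obtain ⟨p, b⟩ := r
  have hb : ∀ j : Fin 7, (bor j).2 = 0 → (bor j).1 = 0 := by decide
  have h1 := sum_bor (E := L) (fun c b' => (if (bor j).2 = b' then g c (bor j).1 else 0) *
    (if b = b' then P' c p else 0)) (by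
      by_cases h : (bor j).2 = 0
      · simp only [h, if_true, hb j h, ht 1 0 (by decide), zero_mul]
      · simp only [if_neg h, zero_mul]) (by
      by_cases h : (bor j).2 = 0
      · simp only [h, if_true, hb j h, ht 2 0 (by decide), zero_mul]
      · simp only [if_neg h, zero_mul])
  rw [Finset.sum_apply]
  have h2 : ∀ j', (N1 g j j' • pp P' j') (p, b) = (if (bor j).2 = (bor j').2 then
      g (bor j').1 (bor j).1 else 0) * (if b = (bor j').2 then P' (bor j').1 p else 0) :=
    fun j' => rfl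
  simp only [h2]
  rw [h1]
  show (if b = (bor j).2 then P (bor j).1 p else 0) = _
  rw [he]
  by_cases h : b = (bor j).2
  · rw [if_pos h]
    refine Finset.sum_congr rfl fun c _ => ?_
    rw [Finset.sum_eq_single (bor j).2]
    · rw [if_pos rfl, if_pos h]
    · intro b' _ hb'
      rw [if_neg (Ne.symm hb'), zero_mul]
    · intro h; exact absurd (Finset.mem_univ _) h
  · rw [if_neg h]
    symm
    refine Finset.sum_eq_zero fun c _ => Finset.sum_eq_zero fun b' _ => ?_
    by_cases h' : (bor j).2 = b'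
    · rw [if_neg (show ¬ b = b' from fun h'' => h (h''.trans h'.symm)), mul_zero]
    · rw [if_neg h', zero_mul]

theorem pp_N2 {P' : Fin 3 → Fin (n + 1) → L} {g : Matrix (Fin 3) (Fin 3) L}
    (ht : ∀ c b, b < c → g c b = 0) (j : Fin 7) :
    Rg g (pp P' j) = ∑ j', N2 g j j' • pp P' j' := by
  funext r
  obtain ⟨p, b⟩ := r
  have hb : ∀ (j : Fin 7) (c : Fin 3), (bor j).1 = c → 0 < c → 0 < (bor j).2 := by decide
  have h0 : ∀ c : Fin 3, 0 < c → (if (bor j).1 = c then g (bor j).2 0 else 0) *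
      (if b = 0 then P' c p else 0) = 0 := by
    intro c hc
    by_cases h : (bor j).1 = c
    · rw [ht _ _ (hb j c h hc), ite_self, zero_mul]
    · rw [if_neg h, zero_mul]
  have h1 := sum_bor (E := L) (fun c b' => (if (bor j).1 = c then g (bor j).2 b' else 0) *
    (if b = b' then P' c p else 0)) (h0 1 (by decide)) (h0 2 (by decide))
  rw [Finset.sum_apply]
  have h2 : ∀ j', (N2 g j j' • pp P' j') (p, b) = (if (bor j).1 = (bor j').1 then
      g (bor j).2 (bor j').2 else 0) * (if b = (bor j').2 then P' (bor j').1 p else 0) :=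
    fun j' => rfl
  simp only [h2]
  rw [h1]
  show ∑ c, g c b * (if c = (bor j).2 then P' (bor j).1 p else 0) = _
  rw [Finset.sum_eq_single (bor j).2, Finset.sum_eq_single (bor j).1, Finset.sum_eq_single b]
  · rw [if_pos rfl, if_pos rfl, if_pos rfl]
  · intro b' _ hb'
    rw [if_neg (Ne.symm hb'), mul_zero]
  · intro h; exact absurd (Finset.mem_univ _) h
  · intro c _ hc
    exact Finset.sum_eq_zero fun b' _ => by rw [if_neg (Ne.symm hc), zero_mul]
  · intro h; exact absurd (Finset.mem_univ _) h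
  · intro c _ hc
    rw [if_neg hc, mul_zero]
  · intro h; exact absurd (Finset.mem_univ _) h

/-- (5): the variation in the new frame -/
theorem VV_frame (D : DSys L n c d) {P P' : Fin 3 → Fin (n + 1) → L}
    {g : Matrix (Fin 3) (Fin 3) L} (he : ∀ b p, P b p = ∑ c, g c b * P' c p)
    (ht : ∀ c b, b < c → g c b = 0) (G : Tup L n c) :
    VV D P G = ∑ j, DG D G (g (bor j).1 (bor j).2) • pp P' j + Rg g (VV D P' G) := by
  funext r
  obtain ⟨p, b⟩ := r
  rw [Pi.add_apply, Finset.sum_apply, VV_apply]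
  have h1 := sum_bor (E := L) (fun c b' => DG D G (g c b') * (if b = b' then P' c p else 0))
    (by simp only [ht 1 0 (by decide), map_zero, zero_mul])
    (by simp only [ht 2 0 (by decide), map_zero, zero_mul])
  have h2 : ∀ j, (DG D G (g (bor j).1 (bor j).2) • pp P' j) (p, b) =
      DG D G (g (bor j).1 (bor j).2) * (if b = (bor j).2 then P' (bor j).1 p else 0) :=
    fun j => rfl
  simp only [h2]
  rw [h1]
  show DG D G (P b p) = _
  rw [he, map_sum]
  unfold Rg
  rw [← Finset.sum_add_distrib]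
  refine Finset.sum_congr rfl fun c _ => ?_
  rw [Derivation.leibniz, VV_apply, smul_eq_mul, smul_eq_mul, Finset.sum_eq_single b]
  · rw [if_pos rfl]
    ring
  · intro b' _ hb'
    rw [if_neg (Ne.symm hb'), mul_zero]
  · intro h; exact absurd (Finset.mem_univ _) h

/-- (4): the determinant in the new frame -/
theorem dt_frame {β : Type} [Fintype β] [DecidableEq β] {P P' : Fin 3 → Fin (n + 1) → L}
    {g : Matrix (Fin 3) (Fin 3) L}
    (he : ∀ b p, P b p = ∑ c, g c b * P' c p) (ht : ∀ c b, b < c → g c b = 0)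
    (hg : ∀ c, g c c ≠ 0) (ε : Fin 7 ⊕ β ≃ Fin (n + 1) × Fin 3)
    (u u' : β → Fin (n + 1) × Fin 3 → L) (T : Matrix β (Fin 7) L)
    (hu : ∀ k, u k = ∑ j, T k j • pp P' j + Rg g (u' k)) :
    dt ε (Sum.elim (pp P) u) = g 0 0 ^ 3 * g.det ^ n * dt ε (Sum.elim (pp P') u') := by
  have h1 := dt_blk ε (pp P) (pp P') u (fun k => Rg g (u' k)) (N1 g) T (pp_N1 he ht) hu
  have h2 := dt_blk ε (fun j => Rg g (pp P' j)) (pp P') (fun k => Rg g (u' k))
    (fun k => Rg g (u' k)) (N2 g) 0 (pp_N2 ht) (fun k => by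
      simp only [Matrix.zero_apply, zero_smul, Finset.sum_const_zero, zero_add])
  have h3 := dt_right ε (Sum.elim (pp P') u') (Sum.elim (fun j => Rg g (pp P' j))
    fun k => Rg g (u' k)) (Matrix.kroneckerMap (fun a b => a * b)
      (1 : Matrix (Fin (n + 1)) (Fin (n + 1)) L) g) (by
      rintro (j | k) r
      · exact Rg_kron g _ r
      · exact Rg_kron g _ r)
  have h4 : (Matrix.kroneckerMap (fun a b => a * b) (1 : Matrix (Fin (n + 1)) (Fin (n + 1)) L)
      g).det = g.det ^ (n + 1) := by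
    have := Matrix.det_kronecker (1 : Matrix (Fin (n + 1)) (Fin (n + 1)) L) g
    rw [Matrix.det_one, one_pow, one_mul, Fintype.card_fin] at this
    exact this
  rw [h4, h2, det_N2 ht] at h3
  rw [h1, det_N1 ht]
  have h5 : g 0 0 * g 1 1 ^ 3 * g 2 2 ^ 3 ≠ 0 :=
    mul_ne_zero (mul_ne_zero (hg 0) (pow_ne_zero _ (hg 1))) (pow_ne_zero _ (hg 2))
  apply mul_left_cancel₀ h5
  calc g 0 0 * g 1 1 ^ 3 * g 2 2 ^ 3 * (g 0 0 ^ 3 * g 1 1 ^ 2 * g 2 2 ^ 2 *
        dt ε (Sum.elim (pp P') fun k => Rg g (u' k))) =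
      g 0 0 ^ 3 * g 1 1 ^ 2 * g 2 2 ^ 2 * (g 0 0 * g 1 1 ^ 3 * g 2 2 ^ 3 *
        dt ε (Sum.elim (pp P') fun k => Rg g (u' k))) := by ring
    _ = _ := by
      rw [h3, pow_succ, det_tri ht]
      ring

end Pool.Agent.T2C.H51
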