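import Pool.Agent.Lib.MP_c7af3c_ag.T2C.H51.Good
import Pool.Agent.Lib.MP_c7af3c_ag.T2.H51.Lin

/-!
# MP_c7af3c_ag, project T2C, row Q25: adapted integral frames of a plane (any dimension)
-/

set_option autoImplicit false
set_option linter.unusedSectionVars false

namespace Pool.Agent.T2C.H51

open MvPolynomial Pool.Agent.Gen Pool.Agent.T2.G

variable {L : Type} [Field L] {Γ : Type} [LinearOrderedCommGroupWithZero Γ] {n : ℕ}

/-- an integral frame `P'` adapted to the flag of `P`, and dual integral forms `ξ` -/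
structure Fr (v : Valuation L Γ) (P P' ξ : Fin 3 → Fin (n + 1) → L)
    (g : Matrix (Fin 3) (Fin 3) L) : Prop where
  eq : ∀ b p, P b p = ∑ c, g c b * P' c p
  tri : ∀ c b, b < c → g c b = 0
  ne : ∀ c, g c c ≠ 0
  int : ∀ c p, v (P' c p) ≤ 1
  int' : ∀ b p, v (ξ b p) ≤ 1
  dual : ∀ b c, ∑ p, ξ b p * P' c p = if b = c then 1 else 0

theorem exists_piv (v : Valuation L Γ) (q : Fin (n + 1) → L) (hq : q ≠ 0) :
    ∃ i, q i ≠ 0 ∧ ∀ p, v (q p / q i) ≤ 1 := by
  obtain ⟨i, -, hi⟩ := Finset.exists_max_image (Finset.univ : Finset (Fin (n + 1)))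
    (fun p => v (q p)) ⟨0, Finset.mem_univ _⟩
  have hi0 : q i ≠ 0 := by
    intro h0
    obtain ⟨p, hp⟩ := Function.ne_iff.1 hq
    have := hi p (Finset.mem_univ _)
    rw [h0, map_zero, le_zero_iff, map_eq_zero] at this
    exact hp this
  exact ⟨i, hi0, fun p => by
    rw [map_div₀]
    exact div_le_one_of_le₀ (hi p (Finset.mem_univ _)) zero_le⟩

theorem exists_fr (v : Valuation L Γ) (P : Fin 3 → Fin (n + 1) → L)
    (hP : LinearIndependent L P) : ∃ P' ξ g, Fr v P P' ξ g := by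
  classical
  have hli := Fintype.linearIndependent_iff.1 hP
  have h0 : P 0 ≠ 0 := hP.ne_zero 0
  obtain ⟨i0, hi0, hv0⟩ := exists_piv v (P 0) h0
  set P0 : Fin (n + 1) → L := fun p => P 0 p / P 0 i0 with hP0
  have hP00 : P0 i0 = 1 := div_self hi0
  set q1 : Fin (n + 1) → L := fun p => P 1 p - P 1 i0 * P0 p with hq1
  have hq1ne : q1 ≠ 0 := by
    intro h
    have h1 := hli ![- P 1 i0 / P 0 i0, 1, 0] (by
      funext p
      have h2 := congrFun h p
      simp only [hq1, hP0, Pi.zero_apply] at h2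
      rw [Finset.sum_apply, Fin.sum_univ_three]
      simp only [Pi.smul_apply, smul_eq_mul, Pi.zero_apply, Matrix.cons_val_zero,
        Matrix.cons_val_one, Matrix.cons_val_two, Matrix.head_cons, Matrix.tail_cons]
      have h3 : - P 1 i0 / P 0 i0 * P 0 p + 1 * P 1 p + 0 * P 2 p =
          P 1 p - P 1 i0 * (P 0 p / P 0 i0) := by ring
      simpa using h3.trans h2) 1
    simp at h1
  obtain ⟨i1, hi1, hv1⟩ := exists_piv v q1 hq1ne
  have hq10 : q1 i0 = 0 := by
    show P 1 i0 - P 1 i0 * P0 i0 = 0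
    rw [hP00]; ring
  set P1 : Fin (n + 1) → L := fun p => q1 p / q1 i1 with hP1
  have hP11 : P1 i1 = 1 := div_self hi1
  have hP10 : P1 i0 = 0 := by
    show q1 i0 / q1 i1 = 0
    rw [hq10, zero_div]
  set s : L := P 2 i1 - P 2 i0 * P0 i1 with hs
  set q2 : Fin (n + 1) → L := fun p => P 2 p - P 2 i0 * P0 p - s * P1 p with hq2
  have hq2ne : q2 ≠ 0 := by
    intro h
    have h1 := hli ![- P 2 i0 / P 0 i0 + s / q1 i1 * (P 1 i0 / P 0 i0), - s / q1 i1, 1] (by
      funext p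
      have h2 := congrFun h p
      simp only [hq2, hP0, hP1, hq1, Pi.zero_apply] at h2
      rw [Finset.sum_apply, Fin.sum_univ_three]
      simp only [Pi.smul_apply, smul_eq_mul, Pi.zero_apply, Matrix.cons_val_zero,
        Matrix.cons_val_one, Matrix.cons_val_two, Matrix.head_cons, Matrix.tail_cons]
      have h3 : (- P 2 i0 / P 0 i0 + s / q1 i1 * (P 1 i0 / P 0 i0)) * P 0 p + - s / q1 i1 * P 1 p
          + 1 * P 2 p = P 2 p - P 2 i0 * (P 0 p / P 0 i0) -
          s * ((P 1 p - P 1 i0 * (P 0 p / P 0 i0)) / q1 i1) := by ring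
      exact h3.trans h2) 2
    simp at h1
  obtain ⟨i2, hi2, hv2⟩ := exists_piv v q2 hq2ne
  have hq20 : q2 i0 = 0 := by
    show P 2 i0 - P 2 i0 * P0 i0 - s * P1 i0 = 0
    rw [hP00, hP10]; ring
  have hq21 : q2 i1 = 0 := by
    show P 2 i1 - P 2 i0 * P0 i1 - s * P1 i1 = 0
    rw [hP11, hs]; ring
  set P2 : Fin (n + 1) → L := fun p => q2 p / q2 i2 with hP2
  have hP22 : P2 i2 = 1 := div_self hi2
  have hP20 : P2 i0 = 0 := by
    show q2 i0 / q2 i2 = 0
    rw [hq20, zero_div]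
  have hP21 : P2 i1 = 0 := by
    show q2 i1 / q2 i2 = 0
    rw [hq21, zero_div]
  set ξ0 : Fin (n + 1) → L := Pi.single i0 1 with hξ0
  set ξ1 : Fin (n + 1) → L := Pi.single i1 1 - P0 i1 • Pi.single i0 1 with hξ1
  set ξ2 : Fin (n + 1) → L := Pi.single i2 1 - P1 i2 • Pi.single i1 1 +
    (P0 i1 * P1 i2 - P0 i2) • Pi.single i0 1 with hξ2
  have hsg : ∀ (i : Fin (n + 1)) (y : Fin (n + 1) → L), ∑ p, (Pi.single i (1 : L) : Fin (n + 1) → L) p * y p = y i := by
    intro i y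
    simp [Pi.single_apply]
  have hvs : ∀ i p : Fin (n + 1), v ((Pi.single i (1 : L) : Fin (n + 1) → L) p) ≤ 1 := by
    intro i p
    rw [Pi.single_apply]
    split_ifs
    · rw [map_one]
    · rw [map_zero]; exact zero_le
  have hd1 : ∀ y : Fin (n + 1) → L, ∑ p, ξ1 p * y p = y i1 - P0 i1 * y i0 := by
    intro y
    simp only [hξ1, Pi.sub_apply, Pi.smul_apply, smul_eq_mul, sub_mul, mul_assoc,
      Finset.sum_sub_distrib, ← Finset.mul_sum, hsg]
  have hd2 : ∀ y : Fin (n + 1) → L, ∑ p, ξ2 p * y p =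
      y i2 - P1 i2 * y i1 + (P0 i1 * P1 i2 - P0 i2) * y i0 := by
    intro y
    simp only [hξ2, Pi.add_apply, Pi.sub_apply, Pi.smul_apply, smul_eq_mul, sub_mul, add_mul,
      mul_assoc, Finset.sum_sub_distrib, Finset.sum_add_distrib, ← Finset.mul_sum, hsg]
  refine ⟨![P0, P1, P2], ![ξ0, ξ1, ξ2],
    !![P 0 i0, P 1 i0, P 2 i0; 0, q1 i1, s; 0, 0, q2 i2], ?_, ?_, ?_, ?_, ?_, ?_⟩
  · intro b p
    rw [Fin.sum_univ_three]
    fin_cases b
    · show P 0 p = P 0 i0 * (P 0 p / P 0 i0) + 0 * P1 p + 0 * P2 p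
      rw [mul_div_cancel₀ _ hi0]; ring
    · show P 1 p = P 1 i0 * P0 p + q1 i1 * (q1 p / q1 i1) + 0 * P2 p
      rw [mul_div_cancel₀ _ hi1]
      show P 1 p = P 1 i0 * P0 p + (P 1 p - P 1 i0 * P0 p) + 0 * P2 p
      ring
    · show P 2 p = P 2 i0 * P0 p + s * P1 p + q2 i2 * (q2 p / q2 i2)
      rw [mul_div_cancel₀ _ hi2]
      show P 2 p = P 2 i0 * P0 p + s * P1 p + (P 2 p - P 2 i0 * P0 p - s * P1 p)
      ring
  · intro c b hcb
    fin_cases c <;> fin_cases b <;> first | rfl | (exact absurd hcb (by decide))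
  · intro c
    fin_cases c
    · exact hi0
    · exact hi1
    · exact hi2
  · intro c p
    fin_cases c
    · exact hv0 p
    · exact hv1 p
    · exact hv2 p
  · intro b p
    fin_cases b
    · exact hvs _ _
    · show v (ξ1 p) ≤ 1
      rw [hξ1]
      refine (v.map_sub _ _).trans (max_le (hvs _ _) ?_)
      rw [Pi.smul_apply, smul_eq_mul, map_mul]
      exact mul_le_one' (hv0 _) (hvs _ _)
    · show v (ξ2 p) ≤ 1
      rw [hξ2]
      refine (v.map_add _ _).trans (max_le ((v.map_sub _ _).trans (max_le (hvs _ _) ?_)) ?_)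
      · rw [Pi.smul_apply, smul_eq_mul, map_mul]
        exact mul_le_one' (hv1 _) (hvs _ _)
      · rw [Pi.smul_apply, smul_eq_mul, map_mul]
        refine mul_le_one' ((v.map_sub _ _).trans (max_le ?_ (hv0 _))) (hvs _ _)
        rw [map_mul]
        exact mul_le_one' (hv0 _) (hv1 _)
  · intro b c
    fin_cases b <;> fin_cases c
    · show ∑ p, ξ0 p * P0 p = 1
      rw [hξ0, hsg, hP00]
    · show ∑ p, ξ0 p * P1 p = 0
      rw [hξ0, hsg, hP10]
    · show ∑ p, ξ0 p * P2 p = 0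
      rw [hξ0, hsg, hP20]
    · show ∑ p, ξ1 p * P0 p = 0
      rw [hd1, hP00]; ring
    · show ∑ p, ξ1 p * P1 p = 1
      rw [hd1, hP11, hP10]; ring
    · show ∑ p, ξ1 p * P2 p = 0
      rw [hd1, hP21, hP20]; ring
    · show ∑ p, ξ2 p * P0 p = 0
      rw [hd2, hP00]; ring
    · show ∑ p, ξ2 p * P1 p = 0
      rw [hd2, hP11, hP10]; ring
    · show ∑ p, ξ2 p * P2 p = 1
      rw [hd2, hP22, hP21, hP20]; ring

end Pool.Agent.T2C.H51
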