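import Pool.Agent.Lib.MP_c7af3c_ag.T2.H51.Smith

/-!
# MP_c7af3c_ag, project T2C, row Q25: alternating forms in forms of degree `e` and substitutions of
small determinant (as T2/H51/Smith.lean, any number of forms)
-/

set_option autoImplicit false
set_option linter.unusedSectionVars false

namespace Pool.Agent.T2C.H51

open MvPolynomial Pool.Agent.Gen Pool.Agent.T2.G
open Pool.Agent.T2.H51 (sg sg_X sg_mul hom_sg CB_sg sg_diag)

variable {L : Type} [Field L] {Γ : Type} [LinearOrderedCommGroupWithZero Γ] {β : Type}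
  [Fintype β] {e E : ℕ}

/-- the exponent of every variable in a product of different monomials of degree `e` -/
def Ex (β : Type) [Fintype β] (e E : ℕ) : Prop := ∀ a : β → (Fin 3 →₀ ℕ), Function.Injective a →
  (∀ k, (a k).degree = e) → ∀ i, E ≤ ∑ k, a k i

theorem ex_two (a : β → (Fin 3 →₀ ℕ)) (hinj : Function.Injective a)
    (hd : ∀ k, (a k).degree = 2) (i : Fin 3) : 2 * Fintype.card β ≤ ∑ k, a k i + 8 := by
  classical
  have hsum : ∀ k, a k 0 + a k 1 + a k 2 = 2 := fun k => by
    have := hd k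
    rwa [Finsupp.degree_eq_sum, Fin.sum_univ_three] at this
  obtain ⟨i', i'', h3⟩ : ∃ i' i'' : Fin 3, ∀ k, a k i + a k i' + a k i'' = 2 ∧
      ∀ l, a k i = a l i → a k i' = a l i' → a k i'' = a l i'' → a k = a l := by
    fin_cases i
    · exact ⟨1, 2, fun k => ⟨hsum k, fun l h0 h1 h2 => by
        ext j; fin_cases j <;> assumption⟩⟩
    · exact ⟨0, 2, fun k => ⟨by have := hsum k; simp only [Fin.mk_one]; omega,
        fun l h0 h1 h2 => by ext j; fin_cases j <;> assumption⟩⟩
    · exact ⟨0, 1, fun k => ⟨by have := hsum k; simp only [Fin.reduceFinMk]; omega,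
        fun l h0 h1 h2 => by ext j; fin_cases j <;> assumption⟩⟩
  have hc : ∀ j : ℕ, (Finset.univ.filter fun k => a k i = j).card ≤ 3 - j := by
    intro j
    rw [← Finset.card_range (3 - j)]
    refine Finset.card_le_card_of_injOn (fun k => a k i') ?_ ?_
    · intro k hk
      rw [Finset.coe_filter, Set.mem_ofPred_eq] at hk
      rw [Finset.coe_range, Set.mem_Iio]
      have h5 := (h3 k).1
      have h6 := hk.2
      show a k i' < 3 - j
      omega
    · intro k hk l hl hkl
      rw [Finset.coe_filter, Set.mem_ofPred_eq] at hk hl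
      have h4 := (h3 k).1
      have h5 := (h3 l).1
      have h6 : a k i' = a l i' := hkl
      refine hinj ((h3 k).2 l (by rw [hk.2, hl.2]) h6 ?_)
      have := hk.2
      have := hl.2
      omega
  have h0 := hc 0
  have h1 := hc 1
  have hk : ∀ k, 2 ≤ a k i + (2 * (if a k i = 0 then 1 else 0) + (if a k i = 1 then 1 else 0)) := by
    intro k
    by_cases h : a k i = 0
    · rw [if_pos h]; omega
    · by_cases h' : a k i = 1
      · rw [if_pos h']; omega
      · omega
  have hs := Finset.sum_le_sum fun k (_ : k ∈ (Finset.univ : Finset β)) => hk k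
  rw [Finset.sum_add_distrib, Finset.sum_add_distrib, ← Finset.mul_sum] at hs
  simp only [Finset.sum_boole, Nat.cast_id, Finset.sum_const, Finset.card_univ,
    smul_eq_mul] at hs
  omega

theorem ex6 : Ex (Fin 6) 2 4 := by
  intro a hinj hd i
  have h := ex_two a hinj hd i
  rw [Fintype.card_fin] at h
  omega

theorem ex5 : Ex (Fin 5) 2 2 := by
  intro a hinj hd i
  have h := ex_two a hinj hd i
  rw [Fintype.card_fin] at h
  omega

/-- an alternating form is bounded by its values on monomials -/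
theorem v_alt_le (v : Valuation L Γ) (Ψ : MvPolynomial (Fin 3) L [⋀^β]→ₗ[L] L)
    (K : Γ) (hK : ∀ b : β → (Fin 3 →₀ ℕ), (∀ k, (b k).degree = e) →
      v (Ψ fun k => monomial (b k) 1) ≤ K)
    (p : β → MvPolynomial (Fin 3) L) (hp : ∀ k, (p k).IsHomogeneous e)
    (hp1 : ∀ k, CB v (p k) 1) : v (Ψ p) ≤ K := by
  classical
  have h1 : p = fun k => ∑ b ∈ (p k).support, coeff b (p k) • monomial b (1 : L) := by
    funext k
    conv_lhs => rw [(p k).as_sum]
    refine Finset.sum_congr rfl fun b _ => ?_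
    rw [smul_monomial, smul_eq_mul, mul_one]
  rw [h1]
  have h2 := Ψ.toMultilinearMap.map_sum_finset
    (fun (k : β) (b : Fin 3 →₀ ℕ) => coeff b (p k) • monomial b (1 : L))
    (fun k => (p k).support)
  have h3 : Ψ (fun k => ∑ b ∈ (p k).support, coeff b (p k) • monomial b (1 : L)) =
      Ψ.toMultilinearMap (fun k => ∑ b ∈ (p k).support, coeff b (p k) • monomial b (1 : L)) := rfl
  rw [h3, h2]
  refine v.map_sum_le fun r hr => ?_
  rw [MultilinearMap.map_smul_univ, smul_eq_mul, map_mul, map_prod]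
  rw [Fintype.mem_piFinset] at hr
  calc (∏ i, v (coeff (r i) (p i))) * v (Ψ.toMultilinearMap fun i => monomial (r i) 1)
      ≤ 1 * K := mul_le_mul' (Finset.prod_le_one' fun i _ => hp1 i _) (hK r fun k => by
        have := hp k (mem_support_iff.1 (hr k))
        rwa [Finsupp.degree_eq_weight_one])
    _ = K := one_mul _

/-- the property which is proved by decomposition -/
def Good (β : Type) (e E : ℕ) (v : Valuation L Γ) (h : Matrix (Fin 3) (Fin 3) L) : Prop :=
  ∀ (Ψ : MvPolynomial (Fin 3) L [⋀^β]→ₗ[L] L) (K : Γ),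
    (∀ b : β → (Fin 3 →₀ ℕ), (∀ k, (b k).degree = e) →
      v (Ψ fun k => monomial (b k) 1) ≤ K) →
    ∀ a : β → (Fin 3 →₀ ℕ), (∀ k, (a k).degree = e) →
      v (Ψ fun k => sg h (monomial (a k) 1)) ≤ v h.det ^ E * K

theorem Good.mul {v : Valuation L Γ} {h h' : Matrix (Fin 3) (Fin 3) L} (hh : Good β e E v h)
    (hh' : Good β e E v h') : Good β e E v (h * h') := by
  intro Ψ K hK a ha
  have h1 : (fun k => sg (h * h') (monomial (a k) (1 : L))) =
      fun k => sg h' (sg h (monomial (a k) 1)) := by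
    funext k
    exact sg_mul h h' _
  rw [h1]
  have h2 := hh (Ψ.compLinearMap (sg h').toLinearMap) (v h'.det ^ E * K)
    (fun b hb => hh' Ψ K hK b hb) a ha
  rw [Matrix.det_mul, map_mul, mul_pow, mul_assoc]
  exact h2

theorem good_int {v : Valuation L Γ} {h : Matrix (Fin 3) (Fin 3) L}
    (hh : ∀ a b, v (h a b) ≤ 1) (hd : v h.det = 1) : Good β e E v h := by
  intro Ψ K hK a ha
  rw [hd, one_pow, one_mul]
  exact v_alt_le v Ψ K hK _ (fun k => hom_sg h _ (ha k)) fun k => CB_sg v h hh _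


theorem good_diag (hE : Ex β e E) {v : Valuation L Γ} (d : Fin 3 → L) (hd : ∀ i, v (d i) ≤ 1) :
    Good β e E v (Matrix.diagonal d) := by
  classical
  intro Ψ K hK a ha
  simp only [sg_diag]
  have h1 : Ψ (fun k => (∏ i, d i ^ a k i) • monomial (a k) (1 : L)) =
      (∏ k, ∏ i, d i ^ a k i) • Ψ (fun k => monomial (a k) (1 : L)) :=
    Ψ.toMultilinearMap.map_smul_univ _ _
  rw [h1, smul_eq_mul, map_mul]
  by_cases hinj : Function.Injective a
  · refine mul_le_mul' ?_ (hK a ha)
    rw [Finset.prod_comm, map_prod, Matrix.det_diagonal, map_prod, ← Finset.prod_pow]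
    refine Finset.prod_le_prod' fun i _ => ?_
    rw [Finset.prod_pow_eq_pow_sum, map_pow]
    exact pow_le_pow_right_of_le_one' (hd i) (hE a hinj ha i)
  · obtain ⟨k, l, hkl, hne⟩ : ∃ k l, a k = a l ∧ k ≠ l := by
      rw [Function.Injective] at hinj
      push Not at hinj
      exact hinj
    have h2 : Ψ (fun k => monomial (a k) (1 : L)) = 0 :=
      Ψ.map_eq_zero_of_eq _ (show monomial (a k) (1 : L) = monomial (a l) 1 by rw [hkl]) hne
    rw [h2, map_zero, mul_zero]
    exact zero_le

theorem good_perm {v : Valuation L Γ} (h : Matrix (Fin 3) (Fin 3) L)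
    (s t : Equiv.Perm (Fin 3)) (hg : Good β e E v (h.submatrix s t)) : Good β e E v h := by
  classical
  have h1 : h = (1 : Matrix (Fin 3) (Fin 3) L).submatrix s.symm id * h.submatrix s t *
      (1 : Matrix (Fin 3) (Fin 3) L).submatrix id t.symm := by
    ext i j
    simp [Matrix.mul_apply, Matrix.one_apply]
  have hv : ∀ a b : Fin 3, v ((1 : Matrix (Fin 3) (Fin 3) L) a b) ≤ 1 := fun a b => by
    rw [Matrix.one_apply]
    split_ifs
    · rw [map_one]
    · rw [map_zero]; exact zero_le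
  have hs : ∀ r : Equiv.Perm (Fin 3), v (((Equiv.Perm.sign r : ℤˣ) : ℤ) : L) = 1 := by
    intro r
    rcases Int.units_eq_one_or (Equiv.Perm.sign r) with h | h
    · rw [h]; simp
    · rw [h]; simp [Valuation.map_neg]
  rw [h1]
  refine ((good_int (fun a b => ?_) ?_).mul hg).mul (good_int (fun a b => ?_) ?_)
  · exact hv _ _
  · rw [Matrix.det_permute s.symm (1 : Matrix (Fin 3) (Fin 3) L), Matrix.det_one, mul_one, hs]
  · exact hv _ _
  · rw [Matrix.det_permute' t.symm (1 : Matrix (Fin 3) (Fin 3) L), Matrix.det_one, mul_one, hs]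

/-- the second step: a block matrix -/
theorem good_two (hE : Ex β e E) {v : Valuation L Γ} (h : Matrix (Fin 3) (Fin 3) L)
    (hh : ∀ a b, v (h a b) ≤ 1) (h01 : h 0 1 = 0) (h02 : h 0 2 = 0) (h10 : h 1 0 = 0)
    (h20 : h 2 0 = 0) (hd : h.det ≠ 0) : Good β e E v h := by
  classical
  -- the maximal entry of the block
  have hne : ∃ p : Fin 2 × Fin 2, h p.1.succ p.2.succ ≠ 0 := by
    by_contra hc
    push Not at hc
    apply hd
    rw [Matrix.det_fin_three]
    have e1 := hc (0, 0)
    have e2 := hc (0, 1)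
    have e3 := hc (1, 0)
    have e4 := hc (1, 1)
    simp only [Fin.succ_zero_eq_one, Fin.succ_one_eq_two] at e1 e2 e3 e4
    rw [e1, e2, e3, e4, h01, h02]
    ring
  obtain ⟨p, -, hp⟩ := Finset.exists_max_image (Finset.univ : Finset (Fin 2 × Fin 2))
    (fun p => v (h p.1.succ p.2.succ)) ⟨(0, 0), Finset.mem_univ _⟩
  have hp0 : h p.1.succ p.2.succ ≠ 0 := by
    intro h0
    obtain ⟨q, hq⟩ := hne
    have := hp q (Finset.mem_univ _)
    rw [h0, map_zero, le_zero_iff, map_eq_zero] at this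
    exact hq this
  -- move it to the place (1,1)
  set s1 : Equiv.Perm (Fin 3) := Equiv.swap 1 p.1.succ with he
  set t1 : Equiv.Perm (Fin 3) := Equiv.swap 1 p.2.succ with hf
  have he0 : s1 0 = 0 := Equiv.swap_apply_of_ne_of_ne (by decide) (Fin.succ_ne_zero _).symm
  have hf0 : t1 0 = 0 := Equiv.swap_apply_of_ne_of_ne (by decide) (Fin.succ_ne_zero _).symm
  have he1 : s1 1 = p.1.succ := Equiv.swap_apply_left _ _
  have hf1 : t1 1 = p.2.succ := Equiv.swap_apply_left _ _
  have he2 : ∃ q : Fin 2, s1 2 = q.succ := by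
    have : s1 2 ≠ 0 := fun h => by
      have := s1.injective (h.trans he0.symm)
      exact absurd this (by decide)
    obtain ⟨q, hq⟩ := Fin.exists_succ_eq.2 this
    exact ⟨q, hq.symm⟩
  have hf2 : ∃ q : Fin 2, t1 2 = q.succ := by
    have : t1 2 ≠ 0 := fun h => by
      have := t1.injective (h.trans hf0.symm)
      exact absurd this (by decide)
    obtain ⟨q, hq⟩ := Fin.exists_succ_eq.2 this
    exact ⟨q, hq.symm⟩
  obtain ⟨q1, he2⟩ := he2
  obtain ⟨q2, hf2⟩ := hf2
  refine good_perm h s1 t1 ?_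
  set b := h (s1 1) (t1 1) with hb
  set c := h (s1 1) (t1 2) with hc
  set d := h (s1 2) (t1 1) with hd'
  set g := h (s1 2) (t1 2) with hg'
  have hb0 : b ≠ 0 := by rw [hb, he1, hf1]; exact hp0
  have hcb : v c ≤ v b := by
    rw [hc, hb, he1, hf1, hf2]; exact hp (p.1, q2) (Finset.mem_univ _)
  have hdb : v d ≤ v b := by
    rw [hd', hb, he1, hf1, he2]; exact hp (q1, p.2) (Finset.mem_univ _)
  have hvb : v b ≠ 0 := by rwa [Ne, map_eq_zero]
  have hz1 : ∀ j : Fin 2, h 0 j.succ = 0 := by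
    intro j
    fin_cases j
    · exact h01
    · exact h02
  have hz2 : ∀ j : Fin 2, h j.succ 0 = 0 := by
    intro j
    fin_cases j
    · exact h10
    · exact h20
  have key1 : h.submatrix s1 t1 = !![h 0 0, 0, 0; 0, b, c; 0, d, g] := by
    ext i j
    rw [Matrix.submatrix_apply]
    fin_cases i <;> fin_cases j
    · show h (s1 0) (t1 0) = h 0 0
      rw [he0, hf0]
    · show h (s1 0) (t1 1) = 0
      rw [he0, hf1, hz1]
    · show h (s1 0) (t1 2) = 0
      rw [he0, hf2, hz1]
    · show h (s1 1) (t1 0) = 0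
      rw [he1, hf0, hz2]
    · rfl
    · rfl
    · show h (s1 2) (t1 0) = 0
      rw [he2, hf0, hz2]
    · rfl
    · rfl
  have key2 : ∀ x y z : L, Matrix.diagonal ![x, y, z] = !![x, 0, 0; 0, y, 0; 0, 0, z] := by
    intro x y z
    ext i j
    fin_cases i <;> fin_cases j <;> simp
  have key : h.submatrix s1 t1 = !![1, 0, 0; 0, 1, 0; 0, d / b, 1] *
      Matrix.diagonal ![h 0 0, b, g - d * c / b] * !![1, 0, 0; 0, 1, c / b; 0, 0, 1] := by
    rw [key1, key2, Matrix.mul_fin_three, Matrix.mul_fin_three]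
    have e1 : d / b * b = d := div_mul_cancel₀ d hb0
    have e2 : b * (c / b) = c := mul_div_cancel₀ c hb0
    have e3 : d * (c / b) + (g - d * c / b) = g := by ring
    simp only [mul_zero, zero_mul, add_zero, zero_add, one_mul, mul_one, e1, e2, e3]
  rw [key]
  have hq1 : v (d / b) ≤ 1 := by
    rw [map_div₀]; exact div_le_one_of_le₀ hdb zero_le
  have hq2 : v (c / b) ≤ 1 := by
    rw [map_div₀]; exact div_le_one_of_le₀ hcb zero_le
  refine ((good_int (fun i j => ?_) ?_).mul (good_diag hE _ fun i => ?_)).mul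
    (good_int (fun i j => ?_) ?_)
  · fin_cases i <;> fin_cases j <;> simp [hq1, -map_div₀]
  · rw [Matrix.det_fin_three]; simp
  · fin_cases i
    · exact hh 0 0
    · exact hh _ _
    · show v (g - d * c / b) ≤ 1
      refine (v.map_sub _ _).trans (max_le (hh _ _) ?_)
      rw [mul_div_assoc, map_mul]
      exact mul_le_one' (hh _ _) hq2
  · fin_cases i <;> fin_cases j <;> simp [hq2, -map_div₀]
  · rw [Matrix.det_fin_three]; simp

/-- matrices with integral entries -/
theorem good_all (hE : Ex β e E) {v : Valuation L Γ} (h : Matrix (Fin 3) (Fin 3) L)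
    (hh : ∀ a b, v (h a b) ≤ 1) (hd : h.det ≠ 0) : Good β e E v h := by
  classical
  have hne : ∃ p : Fin 3 × Fin 3, h p.1 p.2 ≠ 0 := by
    by_contra hc
    push Not at hc
    apply hd
    have : h = 0 := by
      ext i j
      exact hc (i, j)
    rw [this, Matrix.det_zero]
  obtain ⟨p, -, hp⟩ := Finset.exists_max_image (Finset.univ : Finset (Fin 3 × Fin 3))
    (fun p => v (h p.1 p.2)) ⟨(0, 0), Finset.mem_univ _⟩
  have hp0 : h p.1 p.2 ≠ 0 := by
    intro h0
    obtain ⟨q, hq⟩ := hne
    have := hp q (Finset.mem_univ _)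
    rw [h0, map_zero, le_zero_iff, map_eq_zero] at this
    exact hq this
  set s1 : Equiv.Perm (Fin 3) := Equiv.swap 0 p.1 with he
  set t1 : Equiv.Perm (Fin 3) := Equiv.swap 0 p.2 with hf
  have he0 : s1 0 = p.1 := Equiv.swap_apply_left _ _
  have hf0 : t1 0 = p.2 := Equiv.swap_apply_left _ _
  refine good_perm h s1 t1 ?_
  set g := h.submatrix s1 t1 with hg
  have hgh : ∀ a b, v (g a b) ≤ 1 := fun a b => hh _ _
  have hmx : ∀ a b, v (g a b) ≤ v (g 0 0) := fun a b => by
    rw [hg, Matrix.submatrix_apply, Matrix.submatrix_apply, he0, hf0]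
    exact hp (s1 a, t1 b) (Finset.mem_univ _)
  have hg0 : g 0 0 ≠ 0 := by
    rw [hg, Matrix.submatrix_apply, he0, hf0]
    exact hp0
  have hgd : g.det ≠ 0 := by
    have h1 : h = g.submatrix s1.symm t1.symm := by
      ext i j
      simp [hg]
    intro h0
    apply hd
    have h2 : g.submatrix s1.symm t1.symm =
        (g.submatrix s1.symm id).submatrix id t1.symm := by
      ext i j
      rfl
    rw [h1, h2, Matrix.det_permute', Matrix.det_permute, h0, mul_zero, mul_zero]
  have hq : ∀ a b, v (g a b / g 0 0) ≤ 1 := fun a b => by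
    rw [map_div₀]
    exact div_le_one_of_le₀ (hmx a b) zero_le
  have hgeta : g = !![g 0 0, g 0 1, g 0 2; g 1 0, g 1 1, g 1 2; g 2 0, g 2 1, g 2 2] :=
    Matrix.eta_fin_three g
  set w : Matrix (Fin 3) (Fin 3) L := !![g 0 0, 0, 0;
    0, g 1 1 - g 1 0 * (g 0 1 / g 0 0), g 1 2 - g 1 0 * (g 0 2 / g 0 0);
    0, g 2 1 - g 2 0 * (g 0 1 / g 0 0), g 2 2 - g 2 0 * (g 0 2 / g 0 0)] with hw
  have key : g = !![1, 0, 0; g 1 0 / g 0 0, 1, 0; g 2 0 / g 0 0, 0, 1] * w *
      !![1, g 0 1 / g 0 0, g 0 2 / g 0 0; 0, 1, 0; 0, 0, 1] := by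
    rw [hw, Matrix.mul_fin_three, Matrix.mul_fin_three]
    conv_lhs => rw [hgeta]
    have e1 : ∀ a b : Fin 3, g a b / g 0 0 * g 0 0 = g a b := fun a b => div_mul_cancel₀ _ hg0
    have e2 : ∀ a b : Fin 3, g 0 0 * (g a b / g 0 0) = g a b := fun a b => mul_div_cancel₀ _ hg0
    have e3 : ∀ a b : Fin 3, a ≠ 0 → b ≠ 0 →
        g a 0 * (g 0 b / g 0 0) + (g a b - g a 0 * (g 0 b / g 0 0)) = g a b := fun a b _ _ => by
      ring
    simp only [mul_zero, zero_mul, add_zero, zero_add, one_mul, mul_one, e1, e2]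
    rw [e3 1 1 (by decide) (by decide), e3 1 2 (by decide) (by decide),
      e3 2 1 (by decide) (by decide), e3 2 2 (by decide) (by decide)]
  have hwi : ∀ a b : Fin 3, v (g a b - g a 0 * (g 0 b / g 0 0)) ≤ 1 := fun a b =>
    (v.map_sub _ _).trans (max_le (hgh _ _) (by
      rw [map_mul]
      exact mul_le_one' (hgh _ _) (hq _ _)))
  rw [key]
  refine ((good_int (fun i j => ?_) ?_).mul (good_two hE w (fun a b => ?_) rfl rfl rfl rfl ?_)).mul
    (good_int (fun i j => ?_) ?_)
  · fin_cases i <;> fin_cases j <;> simp [hq, -map_div₀]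
  · rw [Matrix.det_fin_three]; simp
  · fin_cases a <;> fin_cases b
    · exact hgh 0 0
    · simp [hw]
    · simp [hw]
    · simp [hw]
    · exact hwi 1 1
    · exact hwi 1 2
    · simp [hw]
    · exact hwi 2 1
    · exact hwi 2 2
  · intro h0
    apply hgd
    rw [key, Matrix.det_mul, Matrix.det_mul, h0, mul_zero, zero_mul]
  · fin_cases i <;> fin_cases j <;> simp [hq, -map_div₀]
  · rw [Matrix.det_fin_three]; simp


end Pool.Agent.T2C.H51
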