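import Pool.Agent.Lib.MP_c7af3c_ag.T2C.H51.Bor
import Pool.Agent.Lib.MP_c7af3c_ag.EDGE.H65.NoFactor

/-!
# MP_c7af3c_ag, project T2C, row Q25: the local estimate in an adapted integral frame
-/

set_option autoImplicit false
set_option linter.unusedSectionVars false

namespace Pool.Agent.T2C.H51

open MvPolynomial Pool.Agent.Gen Pool.Agent.T2.G
open Pool.Agent.Sharp.H75 (DG Tup)
open Pool.Agent.Edge.H65 (ssub ssub_X ssub_C)
open Pool.Agent.T2.H51 (bor sum_bor det_tri dt dt_blk dt_right dt_cramer v_dt_le sg sg_X sg_mul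
  hom_sg CB_sg)

variable {L : Type} [Field L] {Γ : Type} [LinearOrderedCommGroupWithZero Γ] {n c : ℕ}
  {d : Fin c → ℕ}

/-- forms in the dual coordinates -/
noncomputable def loc (ξ : Fin 3 → Fin (n + 1) → L) :
    MvPolynomial (Fin 3) L →ₐ[L] MvPolynomial (Fin (n + 1)) L :=
  aeval fun b => ∑ p, C (ξ b p) * X p

theorem hom_loc (ξ : Fin 3 → Fin (n + 1) → L) {c : MvPolynomial (Fin 3) L} {k : ℕ}
    (hc : c.IsHomogeneous k) : (loc ξ c).IsHomogeneous k := by
  have h := hc.aeval (fun b => (∑ p, C (ξ b p) * X p : MvPolynomial (Fin (n + 1)) L)) (n := 1)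
    (fun b => IsHomogeneous.sum _ _ _ fun p _ => by
      simpa using (isHomogeneous_C _ (ξ b p)).mul (isHomogeneous_X L p))
  rw [one_mul] at h
  exact h

theorem loc_monomial (ξ : Fin 3 → Fin (n + 1) → L) (a : Fin 3 →₀ ℕ) :
    loc ξ (monomial a 1) = ∏ i, (∑ p, C (ξ i p) * X p) ^ a i := by
  unfold loc
  rw [aeval_monomial, map_one, one_mul, Finsupp.prod_fintype]
  intro i
  rw [pow_zero]

theorem CB_loc (v : Valuation L Γ) {ξ : Fin 3 → Fin (n + 1) → L} (hξ : ∀ a b, v (ξ a b) ≤ 1)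
    (a : Fin 3 →₀ ℕ) : CB v (loc ξ (monomial a 1)) 1 := by
  rw [loc_monomial]
  exact T2.H51.CB.prod1 v _ _ fun i _ => T2.H51.CB.pow1 v (T2.H51.CB.sum1 v _ _ fun b _ =>
    (CB_CX v (ξ i b) b).mono v (hξ i b)) _

theorem ssub_loc {P' ξ : Fin 3 → Fin (n + 1) → L}
    (hd : ∀ b c, ∑ p, ξ b p * P' c p = if b = c then 1 else 0) (c : MvPolynomial (Fin 3) L) :
    ssub P' (loc ξ c) = c := by
  have h1 : (ssub P').comp (loc ξ) = AlgHom.id L _ := by
    apply algHom_ext
    intro b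
    rw [AlgHom.comp_apply, AlgHom.id_apply]
    unfold loc
    rw [aeval_X, map_sum]
    have h2 : ∀ p, ssub P' (C (ξ b p) * X p) = ∑ i, C (ξ b p * P' i p) * X i := by
      intro p
      rw [map_mul, ssub_X, ssub_C, Finset.mul_sum]
      refine Finset.sum_congr rfl fun i _ => ?_
      rw [C_mul, mul_assoc]
    simp only [h2]
    rw [Finset.sum_comm]
    have h4 : ∀ i, ∑ p, (C (ξ b p * P' i p) * X i : MvPolynomial (Fin 3) L) =
        C (if b = i then 1 else 0) * X i := by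
      intro i
      rw [← hd b i, map_sum, Finset.sum_mul]
    simp only [h4]
    rw [Finset.sum_eq_single b]
    · rw [if_pos rfl, C_1, one_mul]
    · intro i _ hi
      rw [if_neg (Ne.symm hi), C_0, zero_mul]
    · intro h; exact absurd (Finset.mem_univ _) h
  have h5 := DFunLike.congr_fun h1 c
  rwa [AlgHom.comp_apply, AlgHom.id_apply] at h5

theorem ssub_sg {P P' : Fin 3 → Fin (n + 1) → L} {g : Matrix (Fin 3) (Fin 3) L}
    (he : ∀ b p, P b p = ∑ c, g c b * P' c p) (f : MvPolynomial (Fin (n + 1)) L) :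
    ssub P f = sg g (ssub P' f) := by
  have h1 : ssub P = (sg g).comp (ssub P') := by
    apply algHom_ext
    intro p
    rw [AlgHom.comp_apply, ssub_X, ssub_X, map_sum]
    have h2 : ∀ c, sg g (C (P' c p) * X c) = ∑ b, C (g c b * P' c p) * X b := by
      intro c
      have h3 : sg g (C (P' c p)) = C (P' c p) := (sg g).commutes _
      rw [map_mul, sg_X, h3, Finset.mul_sum]
      refine Finset.sum_congr rfl fun i _ => ?_
      rw [C_mul]
      ring
    simp only [h2]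
    rw [Finset.sum_comm]
    refine Finset.sum_congr rfl fun b _ => ?_
    rw [he, map_sum, Finset.sum_mul]
  rw [h1, AlgHom.comp_apply]

theorem ssub_rename (P' : Fin 3 → Fin (n + 1) → L) (t : Fin 3 → Fin (n + 1))
    (c : MvPolynomial (Fin 3) L) :
    ssub P' (rename t c) = sg (Matrix.of fun a c => P' c (t a)) c := by
  have h1 : (ssub P').comp (rename t) = sg (Matrix.of fun a c => P' c (t a)) := by
    apply algHom_ext
    intro a
    rw [AlgHom.comp_apply, rename_X, ssub_X, sg_X]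
    rfl
  have h2 := DFunLike.congr_fun h1 c
  rwa [AlgHom.comp_apply] at h2

/-- the functional `u -> sum_p F_(m,p)(x) u(p,0)` -/
noncomputable def ee (D : DSys L n c d) (m : Fin c) (x : Fin (n + 1) → L) :
    (Fin (n + 1) × Fin 3 → L) →ₗ[L] L :=
  ∑ p, eval x (pderiv p (D.F m)) • LinearMap.proj (p, 0)

theorem ee_apply (D : DSys L n c d) (m : Fin c) (x : Fin (n + 1) → L)
    (u : Fin (n + 1) × Fin 3 → L) :
    ee D m x u = ∑ p, eval x (pderiv p (D.F m)) * u (p, 0) := by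
  unfold ee
  rw [LinearMap.sum_apply]
  rfl

theorem euler (D : DSys L n c d) {x : Fin (n + 1) → L} {m : Fin c}
    (hF : eval x (D.F m) = 0) : ∑ p, eval x (pderiv p (D.F m)) * x p = 0 := by
  have h1 := (D.hom m).sum_X_mul_pderiv
  have h2 := congrArg (eval x) h1
  rw [map_sum, map_nsmul, hF, smul_zero] at h2
  rw [← h2]
  refine Finset.sum_congr rfl fun p _ => ?_
  rw [map_mul, eval_X, mul_comm]

/-- `e` vanishes on the borders -/
theorem ee_pp (D : DSys L n c d) {x : Fin (n + 1) → L} {m : Fin c} (hF : eval x (D.F m) = 0)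
    {P : Fin 3 → Fin (n + 1) → L} {r : L} (h0 : ∀ p, P 0 p = r * x p) (j : Fin 7) :
    ee D m x (pp P j) = 0 := by
  have hb : ∀ j : Fin 7, (bor j).2 = 0 → (bor j).1 = 0 := by decide
  rw [ee_apply]
  have h1 : ∀ p, pp P j (p, 0) = if 0 = (bor j).2 then P (bor j).1 p else 0 := fun p => rfl
  simp only [h1]
  by_cases h : 0 = (bor j).2
  · simp only [if_pos h, hb j h.symm, h0]
    have h2 : ∀ p, eval x (pderiv p (D.F m)) * (r * x p) =
        r * (eval x (pderiv p (D.F m)) * x p) := fun p => by ring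
    simp only [h2]
    rw [← Finset.mul_sum, euler D hF, mul_zero]
  · simp only [if_neg h, mul_zero, Finset.sum_const_zero]

/-- `e` on the variations -/
theorem ee_VV (D : DSys L n c d) {P : Fin 3 → Fin (n + 1) → L}
    (hF : ∀ m, eval (P 0) (D.F m) = 0) (m1 : Fin c) {G : Tup L n c}
    (hG : ∀ m, (G m).IsHomogeneous (d m)) :
    ee D m1 (P 0) (VV D P G) = - eval (P 0) (G m1) := by
  rw [ee_apply]
  have h1 : ∀ p, VV D P G (p, 0) = ∑ m, D.V (P 0) m (G m) p := by
    intro p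
    rw [VV_apply, ← Sharp.H75.VT_apply, Sharp.H75.VT_eq, Finset.sum_apply]
  simp only [h1, Finset.mul_sum]
  rw [Finset.sum_comm]
  have h2 : ∀ m, ∑ p, eval (P 0) (pderiv p (D.F m1)) * D.V (P 0) m (G m) p =
      if m = m1 then - eval (P 0) (G m) else 0 := fun m =>
    Pool.Agent.Gen.H12.reln L n c d D (P 0) hF m m1 (G m) (hG m)
  simp only [h2]
  rw [Finset.sum_ite_eq' Finset.univ m1, if_pos (Finset.mem_univ _)]

theorem ee_Rg (D : DSys L n c d) (m : Fin c) (x : Fin (n + 1) → L)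
    {g : Matrix (Fin 3) (Fin 3) L} (ht : ∀ c b, b < c → g c b = 0)
    (u : Fin (n + 1) × Fin 3 → L) : ee D m x (Rg g u) = g 0 0 * ee D m x u := by
  rw [ee_apply, ee_apply, Finset.mul_sum]
  refine Finset.sum_congr rfl fun p _ => ?_
  have h1 : Rg g u (p, 0) = g 0 0 * u (p, 0) := by
    unfold Rg
    rw [Fin.sum_univ_three]
    show g 0 0 * u (p, 0) + g 1 0 * u (p, 1) + g 2 0 * u (p, 2) = _
    rw [ht 1 0 (by decide), ht 2 0 (by decide)]
    ring
  rw [h1]
  ring

/-- a tuple with one component -/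
noncomputable def sgl (m : Fin c) : MvPolynomial (Fin (n + 1)) L →ₗ[L] Tup L n c :=
  LinearMap.single L (fun _ => MvPolynomial (Fin (n + 1)) L) m

theorem sgl_apply (m : Fin c) (g : MvPolynomial (Fin (n + 1)) L) :
    sgl m g = Pi.single (M := fun _ => MvPolynomial (Fin (n + 1)) L) m g := rfl

theorem sgl_self (m : Fin c) (g : MvPolynomial (Fin (n + 1)) L) : sgl m g m = g := by
  rw [sgl_apply, Pi.single_eq_same]

theorem sgl_ne {m m' : Fin c} (h : m' ≠ m) (g : MvPolynomial (Fin (n + 1)) L) :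
    sgl m g m' = 0 := by
  rw [sgl_apply, Pi.single_eq_of_ne h]

theorem sgl_hom {m : Fin c} {g : MvPolynomial (Fin (n + 1)) L} (hg : g.IsHomogeneous (d m)) :
    ∀ m', (sgl m g m').IsHomogeneous (d m') := by
  intro m'
  by_cases h : m' = m
  · subst h
    rw [sgl_self]
    exact hg
  · rw [sgl_ne h]
    exact isHomogeneous_zero _ _ _

theorem v_DG_le (D : DSys L n c d) (v : Valuation L Γ) {M : Γ}
    (hdel : ∀ m I, I.degree = d m → ∀ f, v f ≤ 1 → v (D.del m I f) ≤ M) {G : Tup L n c}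
    (hG : ∀ m, (G m).IsHomogeneous (d m)) (hG1 : ∀ m, CB v (G m) 1) {f : L} (hf : v f ≤ 1) :
    v (DG D G f) ≤ M := by
  rw [Sharp.H75.DG_apply]
  refine v.map_sum_le fun m _ => v.map_sum_le fun I hI => ?_
  rw [map_mul]
  calc v (coeff I (G m)) * v (D.del m I f) ≤ 1 * M := mul_le_mul' (hG1 m I) (hdel m I (by
        have := hG m (mem_support_iff.1 hI)
        rwa [Finsupp.degree_eq_weight_one]) f hf)
    _ = M := one_mul _

section frame

variable {v : Valuation L Γ} {P P' ξ : Fin 3 → Fin (n + 1) → L} {g : Matrix (Fin 3) (Fin 3) L}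

theorem Fr.P0 (hf : Fr v P P' ξ g) (p : Fin (n + 1)) : P 0 p = g 0 0 * P' 0 p := by
  rw [hf.eq, Fin.sum_univ_three, hf.tri 1 0 (by decide), hf.tri 2 0 (by decide)]
  ring

theorem Fr.P0' (hf : Fr v P P' ξ g) (p : Fin (n + 1)) : P' 0 p = (g 0 0)⁻¹ * P 0 p := by
  rw [hf.P0, ← mul_assoc, inv_mul_cancel₀ (hf.ne 0), one_mul]

theorem Fr.ee_VV' (hf : Fr v P P' ξ g) (D : DSys L n c d)
    (hF : ∀ m, eval (P 0) (D.F m) = 0) (m1 : Fin c) {G : Tup L n c}
    (hG : ∀ m, (G m).IsHomogeneous (d m)) :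
    g 0 0 * ee D m1 (P 0) (VV D P' G) = - eval (P 0) (G m1) := by
  rw [← ee_VV D hF m1 hG, VV_frame D hf.eq hf.tri G, map_add, map_sum, ee_Rg D m1 _ hf.tri]
  rw [Finset.sum_eq_zero, zero_add]
  intro j _
  rw [map_smul, ee_pp D (hF m1) (r := (g 0 0)⁻¹) hf.P0', smul_zero]

/-- the value of a local monomial at the point -/
theorem Fr.eval_loc (hf : Fr v P P' ξ g) (m : Fin 3 →₀ ℕ) :
    eval (P 0) (loc ξ (monomial m 1)) =
      g 0 0 ^ m.degree * (if m 1 = 0 ∧ m 2 = 0 then 1 else 0) := by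
  have h1 : ∀ i, eval (P 0) (∑ p, C (ξ i p) * X p) = if i = 0 then g 0 0 else 0 := by
    intro i
    rw [map_sum]
    have h2 : ∀ p, eval (P 0) (C (ξ i p) * X p) = g 0 0 * (ξ i p * P' 0 p) := by
      intro p
      rw [map_mul, eval_C, eval_X, hf.P0]
      ring
    simp only [h2]
    rw [← Finset.mul_sum, hf.dual]
    split_ifs <;> simp
  rw [loc_monomial, map_prod]
  simp only [map_pow, h1]
  rw [Fin.prod_univ_three]
  have hs : m.degree = m 0 + m 1 + m 2 := by
    rw [Finsupp.degree_eq_sum, Fin.sum_univ_three]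
  by_cases h : m 1 = 0 ∧ m 2 = 0
  · rw [if_pos h, hs, h.1, h.2]
    simp
  · rw [if_neg h, mul_zero]
    by_cases h1 : m 1 = 0
    · have h2 : m 2 ≠ 0 := fun h2 => h ⟨h1, h2⟩
      rw [if_neg (show ¬ (2 : Fin 3) = 0 by decide), zero_pow h2, mul_zero]
    · rw [if_neg (show ¬ (1 : Fin 3) = 0 by decide), zero_pow h1, mul_zero, zero_mul]

theorem Fr.v_pp (hf : Fr v P P' ξ g) (j : Fin 7) (r : Fin (n + 1) × Fin 3) :
    v (pp P' j r) ≤ 1 := by
  show v (if r.2 = (bor j).2 then P' (bor j).1 r.1 else 0) ≤ 1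
  split_ifs
  · exact hf.int _ _
  · rw [map_zero]
    exact zero_le

theorem Fr.v_VV (hf : Fr v P P' ξ g) (D : DSys L n c d) {M : Γ}
    (hdel : ∀ m I, I.degree = d m → ∀ f, v f ≤ 1 → v (D.del m I f) ≤ M) {G : Tup L n c}
    (hG : ∀ m, (G m).IsHomogeneous (d m)) (hG1 : ∀ m, CB v (G m) 1)
    (r : Fin (n + 1) × Fin 3) : v (VV D P' G r) ≤ M := by
  rw [VV_apply]
  exact v_DG_le D v hdel hG hG1 (hf.int _ _)

theorem CB_sgl {m : Fin c} {g : MvPolynomial (Fin (n + 1)) L} (hg : CB v g 1) :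
    ∀ m', CB v (sgl m g m') 1 := by
  intro m'
  by_cases h : m' = m
  · subst h
    rw [sgl_self]
    exact hg
  · rw [sgl_ne h]
    intro I
    rw [coeff_zero, map_zero]
    exact zero_le

/-- (7): the local estimate -/
theorem Fr.loc_le (hf : Fr v P P' ξ g) (D : DSys L n c d)
    (hF : ∀ m, eval (P 0) (D.F m) = 0) {M : Γ}
    (hdel : ∀ m I, I.degree = d m → ∀ f, v f ≤ 1 → v (D.del m I f) ≤ M)
    {m0 m1 : Fin c} (h01 : m0 ≠ m1) (hd0 : d m0 = 2) (hd1 : d m1 = 5)
    {B : MvPolynomial (Fin (n + 1)) L} (hB : B.IsHomogeneous 3) (hB1 : CB v B 1)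
    (ε : Fin 7 ⊕ (Fin 6 ⊕ Fin 5) ≃ Fin (n + 1) × Fin 3)
    (a : Fin 6 → (Fin 3 →₀ ℕ)) (ha : ∀ k, (a k).degree = 2)
    (b : Fin 5 → (Fin 3 →₀ ℕ)) (hb : ∀ k, (b k).degree = 2) :
    v (g 0 0 ^ 3 * dt ε (Sum.elim (pp P') (Sum.elim
      (fun k => VV D P' (sgl m0 (loc ξ (monomial (a k) 1))))
      fun k => VV D P' (sgl m1 (B * loc ξ (monomial (b k) 1)))))) ≤
      v (eval (P 0) B) * M ^ 11 := by
  classical
  set w : Fin 7 ⊕ (Fin 6 ⊕ Fin 5) → Fin (n + 1) × Fin 3 → L :=
    Sum.elim (pp P') (Sum.elim (fun k => VV D P' (sgl m0 (loc ξ (monomial (a k) 1))))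
      fun k => VV D P' (sgl m1 (B * loc ξ (monomial (b k) 1)))) with hw
  set z0 : Fin 3 →₀ ℕ := Finsupp.single 0 5 with hz0
  have hzd : z0.degree = 5 := by rw [hz0, Finsupp.degree_single]
  set U := VV D P' (sgl m1 (loc ξ (monomial z0 1))) with hU
  have hg0 := hf.ne 0
  -- the size of the new determinants
  have hG0 : ∀ m, (sgl m1 (loc ξ (monomial z0 (1 : L))) m).IsHomogeneous (d m) :=
    sgl_hom (by rw [hd1]; exact hom_loc ξ (isHomogeneous_monomial _ hzd))
  have hGa : ∀ k m, (sgl m0 (loc ξ (monomial (a k) (1 : L))) m).IsHomogeneous (d m) := fun k =>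
    sgl_hom (by rw [hd0]; exact hom_loc ξ (isHomogeneous_monomial _ (ha k)))
  have hGb : ∀ k m, (sgl m1 (B * loc ξ (monomial (b k) (1 : L))) m).IsHomogeneous (d m) :=
    fun k => sgl_hom (by
      rw [hd1]; exact hB.mul (hom_loc ξ (isHomogeneous_monomial _ (hb k))))
  have hGb1 : ∀ k, CB v (B * loc ξ (monomial (b k) (1 : L))) 1 := fun k => by
    have := hB1.mul v (CB_loc v hf.int' (b k))
    rwa [one_mul] at this
  have hdt : ∀ k : Fin 5, v (dt ε (Function.update w (Sum.inr (Sum.inr k)) U)) ≤ M ^ 11 := by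
    intro k
    refine (v_dt_le ε _ v (Sum.elim (fun _ => 1) fun _ => M) ?_).trans (le_of_eq ?_)
    · rintro (j | l | l) r
      · rw [Function.update_of_ne (by simp)]
        exact hf.v_pp j r
      · rw [Function.update_of_ne (by simp)]
        exact hf.v_VV D hdel (hGa l) (CB_sgl (CB_loc v hf.int' _)) r
      · by_cases h : l = k
        · subst h
          rw [Function.update_self]
          exact hf.v_VV D hdel hG0 (CB_sgl (CB_loc v hf.int' _)) r
        · rw [Function.update_of_ne (by simpa using h)]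
          exact hf.v_VV D hdel (hGb l) (CB_sgl (hGb1 l)) r
    · rw [Fintype.prod_sum_type]
      simp
  -- Cramer
  have h1 := dt_cramer ε w (ee D m1 (P 0)) U
  rw [Fintype.sum_sum_type, Fintype.sum_sum_type] at h1
  have h2 : ∑ j : Fin 7, ee D m1 (P 0) (w (Sum.inl j)) *
      dt ε (Function.update w (Sum.inl j) U) = 0 := by
    refine Finset.sum_eq_zero fun j _ => ?_
    have : ee D m1 (P 0) (w (Sum.inl j)) = 0 :=
      ee_pp D (hF m1) (r := (g 0 0)⁻¹) hf.P0' j
    rw [this, zero_mul]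
  have h2' : ∑ k : Fin 6, ee D m1 (P 0) (w (Sum.inr (Sum.inl k))) *
      dt ε (Function.update w (Sum.inr (Sum.inl k)) U) = 0 := by
    refine Finset.sum_eq_zero fun k _ => ?_
    have h3 := hf.ee_VV' D hF m1 (hGa k)
    rw [sgl_ne (Ne.symm h01), map_zero, neg_zero] at h3
    have : ee D m1 (P 0) (w (Sum.inr (Sum.inl k))) = 0 :=
      (mul_eq_zero.1 h3).resolve_left hg0
    rw [this, zero_mul]
  rw [h2, h2', zero_add, zero_add] at h1
  have h3 : g 0 0 * ee D m1 (P 0) U = - g 0 0 ^ 5 := by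
    rw [hf.ee_VV' D hF m1 hG0, sgl_self, hf.eval_loc, hzd, if_pos ⟨by simp [hz0], by simp [hz0]⟩,
      mul_one]
  set ι : Fin 5 → L := fun k => if (b k) 1 = 0 ∧ (b k) 2 = 0 then 1 else 0 with hι
  have h6 : ∀ k, g 0 0 * ee D m1 (P 0) (w (Sum.inr (Sum.inr k))) =
      - (eval (P 0) B * (g 0 0 ^ 2 * ι k)) := by
    intro k
    rw [show w (Sum.inr (Sum.inr k)) = VV D P' (sgl m1 (B * loc ξ (monomial (b k) 1))) from rfl,
      hf.ee_VV' D hF m1 (hGb k), sgl_self, map_mul, hf.eval_loc, hb k]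
  have h7 : g 0 0 ^ 2 * (g 0 0 ^ 3 * dt ε w) = g 0 0 ^ 2 * (eval (P 0) B *
      ∑ k, ι k * dt ε (Function.update w (Sum.inr (Sum.inr k)) U)) := by
    have h8 : g 0 0 * ee D m1 (P 0) U * dt ε w =
        ∑ k, (g 0 0 * ee D m1 (P 0) (w (Sum.inr (Sum.inr k)))) *
        dt ε (Function.update w (Sum.inr (Sum.inr k)) U) := by
      rw [mul_assoc, h1, Finset.mul_sum]
      exact Finset.sum_congr rfl fun k _ => by ring
    rw [h3] at h8
    simp only [h6] at h8
    have h9 : ∑ k, -(eval (P 0) B * (g 0 0 ^ 2 * ι k)) *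
        dt ε (Function.update w (Sum.inr (Sum.inr k)) U) = - (g 0 0 ^ 2 * (eval (P 0) B *
      ∑ k, ι k * dt ε (Function.update w (Sum.inr (Sum.inr k)) U))) := by
      rw [Finset.mul_sum, Finset.mul_sum, ← Finset.sum_neg_distrib]
      exact Finset.sum_congr rfl fun k _ => by ring
    rw [h9] at h8
    linear_combination -h8
  have h10 := mul_left_cancel₀ (pow_ne_zero 2 hg0) h7
  rw [h10, map_mul]
  refine mul_le_mul' le_rfl (v.map_sum_le fun k _ => ?_)
  rw [map_mul]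
  calc v (ι k) * v (dt ε (Function.update w (Sum.inr (Sum.inr k)) U)) ≤ 1 * M ^ 11 := by
        refine mul_le_mul' ?_ (hdt k)
        rw [hι]
        dsimp only
        split_ifs
        · rw [map_one]
        · rw [map_zero]; exact zero_le
    _ = M ^ 11 := one_mul _

end frame

end Pool.Agent.T2C.H51
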