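import Pool.Agent.Lib.MP_c7af3c_ag.T2C.H51.Loc
import Pool.Agent.Lib.MP_c7af3c_ag.T2.H51.M3

/-!
# MP_c7af3c_ag, project T2C, row Q25: the estimate at one place
-/

set_option autoImplicit false
set_option linter.unusedSectionVars false

namespace Pool.Agent.T2C.H51

open MvPolynomial Pool.Agent.Gen Pool.Agent.T2.G
open Pool.Agent.Sharp.H75 (DG Tup)
open Pool.Agent.Edge.H65 (ssub ssub_X ssub_C)
open Pool.Agent.T2.H51 (bor dt dt_blk dt_cramer v_dt_le sg sg_X sg_mul hom_sg CB_sg Psi Psi_apply)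

section re

variable {L : Type} [Field L] {α β γ R : Type} [Fintype α] [DecidableEq α] [Fintype β]
  [DecidableEq β] [Fintype γ] [DecidableEq γ] [Fintype R] [DecidableEq R]

theorem dt_reindex {ι κ : Type} [Fintype ι] [DecidableEq ι] [Fintype κ] [DecidableEq κ]
    (ε : ι → R) (w : ι → R → L) (e : κ ≃ ι) :
    (Matrix.of fun i j => w i (ε j)).det =
      (Matrix.of fun i j => w (e i) (ε (e j))).det := by
  rw [← Matrix.det_submatrix_equiv_self e]
  rfl

theorem dt_assoc (ε : α ⊕ (β ⊕ γ) ≃ R) (A : α → R → L) (u : β → R → L) (u' : γ → R → L) :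
    dt ε (Sum.elim A (Sum.elim u u')) =
      dt ((Equiv.sumAssoc α β γ).trans ε) (Sum.elim (Sum.elim A u) u') := by
  unfold dt
  rw [dt_reindex ε (Sum.elim A (Sum.elim u u')) (Equiv.sumAssoc α β γ)]
  congr 1
  ext i j
  rcases i with (i | i) | i <;> rfl

theorem dt_swap (ε : α ⊕ (β ⊕ γ) ≃ R) (A : α → R → L) (u : β → R → L) (u' : γ → R → L) :
    dt ε (Sum.elim A (Sum.elim u u')) =
      dt ((Equiv.sumAssoc α γ β).trans
        ((Equiv.sumCongr (Equiv.refl α) (Equiv.sumComm γ β)).trans ε))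
        (Sum.elim (Sum.elim A u') u) := by
  rw [← dt_assoc]
  unfold dt
  rw [dt_reindex ε (Sum.elim A (Sum.elim u u'))
    (Equiv.sumCongr (Equiv.refl α) (Equiv.sumComm γ β))]
  congr 1
  ext i j
  rcases i with i | (i | i) <;> rfl

end re

variable {L : Type} [Field L] {Γ : Type} [LinearOrderedCommGroupWithZero Γ] {n c : ℕ}
  {d : Fin c → ℕ}

/-- the determinants of row Q25 -/
noncomputable def dl (D : DSys L n c d) (Q : Fin 3 → Fin (n + 1) → L)
    (t : Fin 3 → Fin (n + 1)) (m0 m1 : Fin c)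
    (ε : Fin 7 ⊕ (Fin 6 ⊕ Fin 5) ≃ Fin (n + 1) × Fin 3) (B : MvPolynomial (Fin (n + 1)) L)
    (p : Fin 6 → MvPolynomial (Fin 3) L) (q : Fin 5 → MvPolynomial (Fin 3) L) : L :=
  dt ε (Sum.elim (pp Q) (Sum.elim (fun k => VV D Q (sgl m0 (rename t (p k))))
    fun k => VV D Q (sgl m1 (B * rename t (q k)))))

/-- the hypotheses on the plane -/
structure Pq (D : DSys L n c d) (Q : Fin 3 → Fin (n + 1) → L) (t : Fin 3 → Fin (n + 1)) :
    Prop where
  hF : ∀ m, eval (Q 0) (D.F m) = 0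
  h0 : Q 0 (t 0) = 1
  h1 : ∀ j, Q 1 (t j) = if j = 1 then 1 else 0
  h2 : ∀ j, Q 2 (t j) = if j = 2 then 1 else 0
  zero : ∀ G : Tup L n c, (∀ m, (G m).IsHomogeneous (d m)) → (∀ m, ssub Q (G m) = 0) →
    VV D Q G = 0

variable {D : DSys L n c d} {Q : Fin 3 → Fin (n + 1) → L} {t : Fin 3 → Fin (n + 1)}

theorem Pq.det (h : Pq D Q t) : (Matrix.of fun a b => Q b (t a)).det = 1 := by
  rw [Matrix.det_fin_three]
  simp only [Matrix.of_apply, h.h0, h.h1, h.h2]
  simp

theorem Pq.li (h : Pq D Q t) : LinearIndependent L Q := by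
  rw [Fintype.linearIndependent_iff]
  intro c hc
  have h1 : (Matrix.of fun a b => Q b (t a)).mulVec c = 0 := by
    funext a
    have h2 := congrFun hc (t a)
    rw [Finset.sum_apply] at h2
    rw [Matrix.mulVec, dotProduct]
    simp only [Matrix.of_apply, Pi.zero_apply]
    rw [← h2.trans (Pi.zero_apply _)]
    exact Finset.sum_congr rfl fun i _ => by rw [Pi.smul_apply, smul_eq_mul, mul_comm]
  have h3 := Matrix.eq_zero_of_mulVec_eq_zero (by rw [h.det]; exact one_ne_zero) h1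
  exact fun i => congrFun h3 i

theorem aux25 {G : Type} [CommMonoid G] (h g b : G) (hg : h * g = 1) :
    (h ^ 4 * (h ^ 2 * (g ^ 5 * b))) * (1 * g) = b := by
  have h1 : (h ^ 4 * (h ^ 2 * (g ^ 5 * b))) * (1 * g) = (h * g) ^ 6 * b := by
    rw [mul_pow, one_mul, show h ^ 6 = h ^ 4 * h ^ 2 by rw [← pow_add], pow_succ g 5]
    ac_rfl
  rw [h1, hg, one_pow, one_mul]

/-- row Q25: the estimate at one place -/
theorem m25 {D : DSys L 5 c d} {Q : Fin 3 → Fin (5 + 1) → L} {t : Fin 3 → Fin (5 + 1)}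
    (hp : Pq D Q t) (v : Valuation L Γ) {M : Γ}
    (hdel : ∀ m I, I.degree = d m → ∀ f, v f ≤ 1 → v (D.del m I f) ≤ M)
    {m0 m1 : Fin c} (h01 : m0 ≠ m1) (hd0 : d m0 = 2) (hd1 : d m1 = 5)
    {B : MvPolynomial (Fin (5 + 1)) L} (hB : B.IsHomogeneous 3) (hB1 : CB v B 1)
    (ε : Fin 7 ⊕ (Fin 6 ⊕ Fin 5) ≃ Fin (5 + 1) × Fin 3)
    (a : Fin 6 → (Fin 3 →₀ ℕ)) (ha : ∀ k, (a k).degree = 2)
    (b : Fin 5 → (Fin 3 →₀ ℕ)) (hb : ∀ k, (b k).degree = 2) (i : Fin 3 → Fin (5 + 1)) :
    v (dl D Q t m0 m1 ε B (fun k => monomial (a k) 1) fun k => monomial (b k) 1) *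
      v (Matrix.of fun r s => Q s (i r)).det ≤ v (eval (Q 0) B) * M ^ 11 := by
  classical
  obtain ⟨P', ξ, g, hf⟩ := exists_fr v Q hp.li
  set h : Matrix (Fin 3) (Fin 3) L := Matrix.of fun a c => P' c (t a) with hh
  have hhg : h.det * g.det = 1 := by
    rw [← Matrix.det_mul, ← hp.det]
    congr 1
    ext a b
    rw [Matrix.mul_apply]
    simp only [hh, Matrix.of_apply]
    rw [hf.eq]
    exact Finset.sum_congr rfl fun c _ => mul_comm _ _
  have hhd : h.det ≠ 0 := left_ne_zero_of_mul_eq_one hhg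
  have hhi : ∀ a c, v (h a c) ≤ 1 := fun a c => hf.int _ _
  -- the two linear maps
  set φ : MvPolynomial (Fin 3) L →ₗ[L] (Fin (5 + 1) × Fin 3 → L) :=
    (VV D Q).comp ((sgl m0).comp (loc ξ).toLinearMap) with hφ
  set ψ : MvPolynomial (Fin 3) L →ₗ[L] (Fin (5 + 1) × Fin 3 → L) :=
    (VV D Q).comp ((sgl m1).comp ((LinearMap.mulLeft L B).comp (loc ξ).toLinearMap)) with hψ
  have hφa : ∀ c, φ c = VV D Q (sgl m0 (loc ξ c)) := fun c => rfl
  have hψa : ∀ c, ψ c = VV D Q (sgl m1 (B * loc ξ c)) := fun c => rfl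
  set K : Γ := v g.det ^ 5 * (v (eval (Q 0) B) * M ^ 11) with hKd
  -- values on monomials
  have hK : ∀ (a' : Fin 6 → (Fin 3 →₀ ℕ)) (b' : Fin 5 → (Fin 3 →₀ ℕ)),
      (∀ k, (a' k).degree = 2) → (∀ k, (b' k).degree = 2) →
      v (dt ε (Sum.elim (pp Q) (Sum.elim (fun k => φ (monomial (a' k) 1))
        fun k => ψ (monomial (b' k) 1)))) ≤ K := by
    intro a' b' ha' hb'
    have h1 := dt_frame hf.eq hf.tri hf.ne ε
      (Sum.elim (fun k => φ (monomial (a' k) 1)) fun k => ψ (monomial (b' k) 1))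
      (Sum.elim (fun k => VV D P' (sgl m0 (loc ξ (monomial (a' k) 1))))
        fun k => VV D P' (sgl m1 (B * loc ξ (monomial (b' k) 1))))
      (Matrix.of fun k j => Sum.elim
        (fun k => DG D (sgl m0 (loc ξ (monomial (a' k) (1 : L)))) (g (bor j).1 (bor j).2))
        (fun k => DG D (sgl m1 (B * loc ξ (monomial (b' k) 1))) (g (bor j).1 (bor j).2)) k)
      (by
        rintro (k | k)
        · exact VV_frame D hf.eq hf.tri _
        · exact VV_frame D hf.eq hf.tri _)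
    have h2 := hf.loc_le D hp.hF hdel h01 hd0 hd1 hB hB1 ε a' ha' b' hb'
    rw [h1, mul_comm (g 0 0 ^ 3), mul_assoc, map_mul, map_pow]
    exact mul_le_mul' le_rfl h2
  -- second block
  have hK2 : ∀ (a' : Fin 6 → (Fin 3 →₀ ℕ)), (∀ k, (a' k).degree = 2) →
      v (dt ε (Sum.elim (pp Q) (Sum.elim (fun k => φ (monomial (a' k) 1))
        fun k => ψ (sg h (monomial (b k) 1))))) ≤ v h.det ^ 2 * K := by
    intro a' ha'
    have h1 := good_all (v := v) ex5 h hhi hhd
      (Psi ((Equiv.sumAssoc _ _ _).trans ε) (Sum.elim (pp Q) fun k => φ (monomial (a' k) 1)) ψ)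
      K (fun b' hb' => by
        rw [Psi_apply, ← dt_assoc]
        exact hK a' b' ha' hb') b hb
    rw [Psi_apply, ← dt_assoc] at h1
    exact h1
  -- first block
  have h1 := good_all (v := v) ex6 h hhi hhd
    (Psi ((Equiv.sumAssoc _ _ _).trans
        ((Equiv.sumCongr (Equiv.refl _) (Equiv.sumComm _ _)).trans ε))
      (Sum.elim (pp Q) fun k => ψ (sg h (monomial (b k) 1))) φ)
    (v h.det ^ 2 * K) (fun a' ha' => by
      rw [Psi_apply, ← dt_swap]
      exact hK2 a' ha') a ha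
  rw [Psi_apply, ← dt_swap] at h1
  -- comparison of the two families
  have hcmp : ∀ (m : Fin c) (C : MvPolynomial (Fin (5 + 1)) L) (I : Fin 3 →₀ ℕ),
      (C * rename t (monomial I 1)).IsHomogeneous (d m) →
      (C * loc ξ (sg h (monomial I 1))).IsHomogeneous (d m) →
      VV D Q (sgl m (C * rename t (monomial I 1))) =
        VV D Q (sgl m (C * loc ξ (sg h (monomial I 1)))) := by
    intro m C I h1 h2
    rw [← sub_eq_zero, ← map_sub, ← map_sub]
    refine hp.zero _ (sgl_hom (h1.sub h2)) fun m' => ?_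
    by_cases hm : m' = m
    · subst hm
      rw [sgl_self, ssub_sg hf.eq, map_sub, map_mul, map_mul, ssub_rename, ssub_loc hf.dual,
        ← hh, sub_self, map_zero]
    · rw [sgl_ne hm, map_zero]
  have h2 : dl D Q t m0 m1 ε B (fun k => monomial (a k) 1) (fun k => monomial (b k) 1) =
      dt ε (Sum.elim (pp Q) (Sum.elim (fun k => φ (sg h (monomial (a k) 1)))
        fun k => ψ (sg h (monomial (b k) 1)))) := by
    unfold dl
    congr 1
    congr 1
    congr 1
    · funext k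
      have h3 := hcmp m0 1 (a k) (by
        rw [one_mul, hd0]
        exact (isHomogeneous_monomial _ (ha k)).rename_isHomogeneous) (by
        rw [one_mul, hd0]
        exact hom_loc ξ (hom_sg h _ (ha k)))
      rw [one_mul, one_mul] at h3
      rw [hφa]
      exact h3
    · funext k
      rw [hψa]
      refine hcmp m1 B (b k) ?_ ?_
      · rw [hd1]
        exact hB.mul (isHomogeneous_monomial _ (hb k)).rename_isHomogeneous
      · rw [hd1]
        exact hB.mul (hom_loc ξ (hom_sg h _ (hb k)))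
  rw [h2]
  -- the minors
  have h3 : (Matrix.of fun r s => Q s (i r)) = (Matrix.of fun r c => P' c (i r)) * g := by
    ext r s
    rw [Matrix.mul_apply]
    simp only [Matrix.of_apply]
    rw [hf.eq]
    exact Finset.sum_congr rfl fun c _ => mul_comm _ _
  have h4 : v (Matrix.of fun r c => P' c (i r)).det ≤ 1 := by
    refine (T2.G.v_det_le v _ (fun _ => 1) fun a c => hf.int _ _).trans (le_of_eq ?_)
    simp
  have h5 : v h.det * v g.det = 1 := by rw [← map_mul, hhg, map_one]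
  refine (mul_le_mul' h1 (?_ : _ ≤ 1 * v g.det)).trans (le_of_eq (aux25 _ _ _ h5))
  rw [h3, Matrix.det_mul, map_mul]
  exact mul_le_mul' h4 le_rfl

end Pool.Agent.T2C.H51
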