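import Pool.Agent.Lib.MP_c7af3c_ag.T2C.H51.M25
import Pool.Agent.Lib.MP_c7af3c_ag.T2C.H51.Stm

/-!
# MP_c7af3c_ag, project T2C, row Q25: the frame with the point, normalised coordinates, spans
-/

set_option autoImplicit false
set_option linter.unusedSectionVars false

namespace Pool.Agent.T2C.H51

open MvPolynomial Pool.Agent.Gen Pool.Agent.T2.G
open Pool.Agent.T2C (Pl Ty RT)
open Pool.Agent.Sharp.H75 (DG Tup dco)
open Pool.Agent.T2C.H8 (Fix T3 HomC lift rs RC sm mulC dT PlC)
open Pool.Agent.Edge.H65 (ssub ssub_X ssub_C)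
open Pool.Agent.T2.H51 (bor dt)

variable {Ω : Type} [Field Ω]

/-! ### the quadratic monomials -/

abbrev J2 : Type := {I : Fin 3 →₀ ℕ // I ∈ (Finset.univ : Finset (Fin 3)).finsuppAntidiag 2}

theorem card_J2 : Fintype.card J2 = 6 := by
  rw [Fintype.card_coe, Finset.card_finsuppAntidiag_nat_eq_choose, Finset.card_univ,
    Fintype.card_fin]
  decide

theorem exists_mm : ∃ mm : Fin 6 → (Fin 3 →₀ ℕ), Function.Injective mm ∧
    (∀ k, (mm k).degree = 2) ∧ ∀ (K : Type) [Field K] (C : MvPolynomial (Fin 3) K),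
      C.IsHomogeneous 2 → C = ∑ k, coeff (mm k) C • monomial (mm k) (1 : K) := by
  classical
  obtain ⟨e⟩ : Nonempty (Fin 6 ≃ J2) := ⟨(Fintype.equivFinOfCardEq card_J2).symm⟩
  refine ⟨fun k => (e k : J2).1, fun a b h => e.injective (Subtype.ext h), fun k => ?_, ?_⟩
  · have h := (e k).2
    rw [Finset.mem_finsuppAntidiag] at h
    rw [Finsupp.degree_eq_sum]
    exact h.1
  · intro K _ C hC
    have hsub : C.support ⊆ (Finset.univ : Finset (Fin 3)).finsuppAntidiag 2 := by
      intro I hI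
      rw [Finset.mem_finsuppAntidiag]
      refine ⟨?_, fun i _ => Finset.mem_univ i⟩
      have h3 : I.degree = 2 := by
        have := hC (mem_support_iff.mp hI)
        rwa [Finsupp.degree_eq_weight_one]
      rw [Finsupp.degree_eq_sum] at h3
      exact h3
    rw [e.sum_comp fun I : J2 => coeff (I : Fin 3 →₀ ℕ) C • monomial (I : Fin 3 →₀ ℕ) (1 : K)]
    rw [Finset.sum_coe_sort ((Finset.univ : Finset (Fin 3)).finsuppAntidiag 2)
      fun I => coeff I C • monomial I (1 : K)]
    rw [← Finset.sum_subset hsub fun I _ hI => by rw [notMem_support_iff.mp hI, zero_smul]]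
    conv_lhs => rw [C.as_sum]
    refine Finset.sum_congr rfl fun I _ => ?_
    rw [smul_monomial, smul_eq_mul, mul_one]

/-! ### the frame -/

section

variable {n c : ℕ} {d : Fin c → ℕ} {D : DSys Ω n c d} {x : Fin (n + 1) → Ω}
  {t : Fin 3 → Fin (n + 1)} {P : Fin 3 → Fin (n + 1) → Ω}

/-- the frame with the point as first vector -/
def Qf (x : Fin (n + 1) → Ω) (P : Fin 3 → Fin (n + 1) → Ω) : Fin 3 → Fin (n + 1) → Ω :=
  ![x, P 1, P 2]

/-- the change of frame -/
def gf (x : Fin (n + 1) → Ω) (t : Fin 3 → Fin (n + 1)) : Matrix (Fin 3) (Fin 3) Ω :=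
  !![1, 0, 0; - x (t 1), 1, 0; - x (t 2), 0, 1]

theorem gf_det (x : Fin (n + 1) → Ω) (t : Fin 3 → Fin (n + 1)) : (gf x t).det = 1 := by
  rw [gf, Matrix.det_fin_three]
  simp

theorem P_gf (hp : Pl D x t P) (b : Fin 3) (p : Fin (n + 1)) :
    P b p = ∑ c, gf x t c b * Qf x P c p := by
  rw [Fin.sum_univ_three]
  fin_cases b
  · show P 0 p = 1 * x p + - x (t 1) * P 1 p + - x (t 2) * P 2 p
    rw [hp.xP p, Fin.sum_univ_three, hp.x0]
    ring
  · show P 1 p = 0 * x p + 1 * P 1 p + 0 * P 2 p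
    ring
  · show P 2 p = 0 * x p + 0 * P 1 p + 1 * P 2 p
    ring

theorem pq_of (hp : Pl D x t P) : Pq D (Qf x P) t where
  hF := hp.h0
  h0 := hp.x0
  h1 := fun j => by
    show P 1 (t j) = _
    rw [hp.Pt]
    by_cases h : j = 1
    · rw [if_pos h, if_pos h.symm]
    · rw [if_neg h, if_neg (Ne.symm h)]
  h2 := fun j => by
    show P 2 (t j) = _
    rw [hp.Pt]
    by_cases h : j = 2
    · rw [if_pos h, if_pos h.symm]
    · rw [if_neg h, if_neg (Ne.symm h)]
  zero := fun G hG h0 => by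
    have h1 : ∀ m, ssub P (G m) = 0 := fun m => by
      have h2 := ssub_sg (P_gf hp) (G m)
      rw [h0, map_zero] at h2
      exact h2
    have h3 := hp.int G hG h1
    funext r
    obtain ⟨p, b⟩ := r
    rw [VV_apply]
    fin_cases b
    · exact h3.1 p
    · exact h3.2 1 p
    · exact h3.2 2 p

theorem det_Qf (hp : Pl D x t P) (r : Fin 3 → Fin (n + 1)) :
    (Matrix.of fun i j => P i (r j)).det = (Matrix.of fun r' s => Qf x P s (r r')).det := by
  rw [← Matrix.det_transpose]
  have h3 : (Matrix.of fun i j => P i (r j)).transpose =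
      (Matrix.of fun r' s => Qf x P s (r r')) * gf x t := by
    ext i j
    rw [Matrix.mul_apply]
    simp only [Matrix.of_apply, Matrix.transpose_apply]
    rw [P_gf hp]
    exact Finset.sum_congr rfl fun c _ => mul_comm _ _
  rw [h3, Matrix.det_mul, gf_det, mul_one]

/-- the entries of the frame are minors -/
theorem det_upd (hp : Pl D x t P) (i : Fin 3) (f : Fin (n + 1)) :
    Matrix.det (Matrix.of fun a b => P a (Function.update t i f b)) = P i f := by
  have h : (Matrix.of fun a b => P a (Function.update t i f b)) =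
      Matrix.updateCol (1 : Matrix (Fin 3) (Fin 3) Ω) i fun a => P a f := by
    ext a b
    rw [Matrix.of_apply, Matrix.updateCol_apply]
    by_cases hb : b = i
    · rw [if_pos hb, hb, Function.update_self]
    · rw [if_neg hb, Function.update_of_ne hb, hp.Pt, Matrix.one_apply]
  rw [h, ← Matrix.cramer_apply, Matrix.cramer_one]
  rfl

/-- the seven normalised coordinates -/
def pj (t : Fin 3 → Fin (n + 1)) : (Fin (n + 1) × Fin 3 → Ω) →ₗ[Ω] (Fin 7 → Ω) :=
  LinearMap.funLeft Ω Ω fun j => (t (bor j).1, (bor j).2)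

theorem pj_apply (t : Fin 3 → Fin (n + 1)) (w : Fin (n + 1) × Fin 3 → Ω) (j : Fin 7) :
    pj t w j = w (t (bor j).1, (bor j).2) := rfl

theorem pj_VV (hp : Pl D x t P) (G : Tup Ω n c) : pj t (VV D (Qf x P) G) = 0 := by
  have h0 : DG D G (x (t 0)) = 0 := by rw [hp.x0, (DG D G).map_one_eq_zero]
  have h1 : ∀ i j, DG D G (P i (t j)) = 0 := by
    intro i j
    rw [hp.Pt]
    split_ifs
    · exact (DG D G).map_one_eq_zero
    · exact map_zero _
  funext j
  rw [pj_apply, VV_apply]
  fin_cases j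
  · exact h0
  · exact h1 1 0
  · exact h1 2 0
  · exact h1 1 1
  · exact h1 2 1
  · exact h1 1 2
  · exact h1 2 2

theorem pj_pp (hq : Pq D (Qf x P) t) :
    LinearIndependent Ω fun j => pj t (pp (Qf x P) j) := by
  rw [Fintype.linearIndependent_iff]
  intro e he
  have hval : ∀ j j' : Fin 7, pj t (pp (Qf x P) j) j' =
      if (bor j').2 = (bor j).2 then Qf x P (bor j).1 (t (bor j').1) else 0 := fun j j' => rfl
  have hc := fun j' => congrFun he j'
  simp only [Finset.sum_apply, Pi.smul_apply, smul_eq_mul, hval, Fin.sum_univ_seven,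
    Pi.zero_apply] at hc
  have q0 : Qf x P 0 (t 0) = 1 := hq.h0
  have q1 : ∀ j, Qf x P 1 (t j) = if j = 1 then 1 else 0 := hq.h1
  have q2 : ∀ j, Qf x P 2 (t j) = if j = 2 then 1 else 0 := hq.h2
  have h0 := hc 0
  have h1 := hc 1
  have h2 := hc 2
  have h3 := hc 3
  have h4 := hc 4
  have h5 := hc 5
  have h6 := hc 6
  simp [bor, q0, q1, q2] at h0 h1 h2 h3 h4 h5 h6
  rw [h1, zero_mul, zero_add] at h3 h5
  rw [h2, zero_mul, zero_add] at h4 h6
  intro i
  fin_cases i
  · exact h0
  · exact h1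
  · exact h2
  · exact h3
  · exact h4
  · exact h5
  · exact h6

/-- the variations of the lifts of tuples in `RC` are zero -/
theorem VV_lift (g : T3 Ω c) (hg : HomC d g) (hp : Pl D x t P) :
    VV D (Qf x P) (lift t g) = 0 ↔ g ∈ RC D x t P := by
  rw [H8.mem_RC]
  constructor
  · intro h
    have hx : ∀ f, DG D (lift t g) (x f) = 0 := fun f =>
      (VV_apply D (Qf x P) (lift t g) (f, 0)).symm.trans (congrFun h (f, 0))
    have h1 : ∀ f, DG D (lift t g) (P 1 f) = 0 := fun f =>
      (VV_apply D (Qf x P) (lift t g) (f, 1)).symm.trans (congrFun h (f, 1))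
    have h2 : ∀ f, DG D (lift t g) (P 2 f) = 0 := fun f =>
      (VV_apply D (Qf x P) (lift t g) (f, 2)).symm.trans (congrFun h (f, 2))
    refine ⟨hg, hx, fun i f => ?_⟩
    fin_cases i
    · show DG D (lift t g) (P 0 f) = 0
      have e0 : P 0 f = x f - P 1 f * x (t 1) - P 2 f * x (t 2) := by
        rw [hp.xP f, Fin.sum_univ_three, hp.x0]
        ring
      rw [e0, map_sub, map_sub, Derivation.leibniz, Derivation.leibniz, hx, hx, hx, h1, h2]
      simp
    · exact h1 f
    · exact h2 f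
  · rintro ⟨-, h1, h2⟩
    funext r
    obtain ⟨p, b⟩ := r
    rw [VV_apply]
    fin_cases b
    · exact h1 p
    · exact h2 1 p
    · exact h2 2 p

/-- components of a form which is zero on the plane are zero in `RC` -/
theorem RC_zero (hp : Pl D x t P) {m : Fin c} (hm : ssub P (D.F m) = 0) (g : T3 Ω c)
    (hg : g ∈ RC D x t P) : g m = 0 := by
  have h1 := H8.rs_dT hg.2 D.F
  rw [H8.dT_F (H8.lift_hom hg.1), H8.rs_lift hp.Pt] at h1
  have h2 := congrFun h1 m
  rw [H8.dT_apply, H8.rs_apply, hm] at h2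
  rw [h2]
  ext J
  rw [Sharp.H75.coeff_dco, coeff_zero, map_zero]

end

end Pool.Agent.T2C.H51
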